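import Mathlib

/-! Magnetic Laplacians of finite graphs and the magneto-spectral height: definitions and the
variational description of the smallest eigenvalue. -/

open Finset

namespace Pool.Agent.Q260.MG

section Defs

variable {V : Type*} (G : SimpleGraph V)

/-- `σ` is a magnetic potential on `G`: for adjacent `x, y` the value `σ x y` has absolute value
one and `σ y x` is its inverse. (Values at non-adjacent pairs play no role.) -/
def IsPotential (σ : V → V → ℂ) : Prop :=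
  ∀ x y, G.Adj x y → ‖σ x y‖ = 1 ∧ σ y x = (σ x y)⁻¹

open Classical in
/-- The magnetic Laplacian `Δ^σ f(x) = ∑_{y ∼ x} (f(x) - σ(x,y) f(y))`. -/
noncomputable def magLap [Fintype V] (σ : V → V → ℂ) (f : V → ℂ) (x : V) : ℂ :=
  ∑ y, if G.Adj x y then f x - σ x y * f y else 0

/-- The smallest eigenvalue `λ₁^σ(G)` of the magnetic Laplacian. -/
noncomputable def lam1 [Fintype V] (σ : V → V → ℂ) : ℝ :=
  sInf {μ : ℝ | ∃ f : V → ℂ, f ≠ 0 ∧ ∀ x, magLap G σ f x = (μ : ℂ) * f x}

/-- The magneto-spectral height `ν(G)`: the supremum of `λ₁^σ(G)` over all potentials. -/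
noncomputable def nu [Fintype V] : ℝ := sSup {t : ℝ | ∃ σ, IsPotential G σ ∧ lam1 G σ = t}

open Classical in
/-- The quadratic form of the magnetic Laplacian. -/
noncomputable def energy [Fintype V] (σ : V → V → ℂ) (f : V → ℂ) : ℝ :=
  (1 / 2) * ∑ x, ∑ y, if G.Adj x y then ‖f x - σ x y * f y‖ ^ 2 else 0

end Defs

variable {V : Type*} [Fintype V] {G : SimpleGraph V} {σ : V → V → ℂ}

lemma IsPotential.conj (hσ : IsPotential G σ) {x y : V} (h : G.Adj x y) :
    (starRingEnd ℂ) (σ x y) = σ y x := by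
  obtain ⟨h1, h2⟩ := hσ x y h
  rw [h2, Complex.inv_def, Complex.normSq_eq_norm_sq, h1]
  simp

lemma energy_nonneg (f : V → ℂ) : 0 ≤ energy G σ f := by
  unfold energy
  have : 0 ≤ ∑ x, ∑ y, (open Classical in if G.Adj x y then ‖f x - σ x y * f y‖ ^ 2 else 0) := by
    refine Finset.sum_nonneg fun x _ => Finset.sum_nonneg fun y _ => ?_
    split_ifs <;> positivity
  positivity

lemma sum_conj_magLap (hσ : IsPotential G σ) (f : V → ℂ) :
    ∑ x, (starRingEnd ℂ) (f x) * magLap G σ f x = (energy G σ f : ℂ) := by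
  classical
  unfold energy magLap
  have h1 : ∀ x y, (if G.Adj x y then ((‖f x - σ x y * f y‖ ^ 2 : ℝ) : ℂ) else 0) =
      (starRingEnd ℂ) (f x) * (if G.Adj x y then f x - σ x y * f y else 0) +
      (starRingEnd ℂ) (f y) * (if G.Adj y x then f y - σ y x * f x else 0) := by
    intro x y
    by_cases h : G.Adj x y
    · rw [if_pos h, if_pos h, if_pos h.symm]
      have h2 := hσ.conj h
      have h3 : σ x y * σ y x = 1 := by
        obtain ⟨h4, h5⟩ := hσ x y h
        rw [h5]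
        apply mul_inv_cancel₀
        intro h0
        rw [h0] at h4
        simp at h4
      rw [← Complex.normSq_eq_norm_sq, Complex.normSq_eq_conj_mul_self, map_sub, map_mul, h2]
      linear_combination (starRingEnd ℂ) (f y) * f y * h3
    · have h' : ¬ G.Adj y x := fun h0 => h h0.symm
      rw [if_neg h, if_neg h, if_neg h']
      simp
  have h2 : ((∑ x, ∑ y, if G.Adj x y then ‖f x - σ x y * f y‖ ^ 2 else 0 : ℝ) : ℂ) =
      ∑ x, ∑ y, (if G.Adj x y then ((‖f x - σ x y * f y‖ ^ 2 : ℝ) : ℂ) else 0) := by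
    push_cast
    refine Finset.sum_congr rfl fun x _ => Finset.sum_congr rfl fun y _ => ?_
    split_ifs <;> simp
  rw [Complex.ofReal_mul, h2]
  simp only [h1, Finset.sum_add_distrib]
  rw [Finset.sum_comm (f := fun x y => (starRingEnd ℂ) (f y) *
    (if G.Adj y x then f y - σ y x * f x else 0))]
  simp only [Finset.mul_sum]
  push_cast
  ring

/-- the operator on Euclidean space -/
noncomputable def opr (G : SimpleGraph V) (σ : V → V → ℂ) :
    EuclideanSpace ℂ V →ₗ[ℂ] EuclideanSpace ℂ V where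
  toFun f := WithLp.toLp 2 (magLap G σ (WithLp.ofLp f))
  map_add' f g := by
    classical
    ext x
    simp only [magLap, PiLp.add_apply]
    rw [← Finset.sum_add_distrib]
    refine Finset.sum_congr rfl fun y _ => ?_
    split_ifs
    · ring
    · simp
  map_smul' c f := by
    classical
    ext x
    simp only [magLap, PiLp.smul_apply, RingHom.id_apply, smul_eq_mul, Finset.mul_sum]
    refine Finset.sum_congr rfl fun y _ => ?_
    split_ifs
    · ring
    · simp

lemma opr_apply (f : EuclideanSpace ℂ V) (x : V) :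
    opr G σ f x = magLap G σ (WithLp.ofLp f) x := rfl

lemma opr_symm (hσ : IsPotential G σ) : (opr G σ).IsSymmetric := by
  classical
  intro f g
  rw [PiLp.inner_apply, PiLp.inner_apply]
  simp only [opr_apply, RCLike.inner_apply, magLap]
  simp only [map_sum, Finset.mul_sum, Finset.sum_mul]
  have h1 : ∀ x y, g x * (starRingEnd ℂ) (if G.Adj x y then f x - σ x y * f y else 0) =
      (if G.Adj x y then g x * (starRingEnd ℂ) (f x) else 0) -
      (if G.Adj x y then σ y x * g x * (starRingEnd ℂ) (f y) else 0) := by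
    intro x y
    split_ifs with h
    · rw [map_sub, map_mul, hσ.conj h]; ring
    · simp
  have h2 : ∀ x y, (if G.Adj x y then g x - σ x y * g y else 0) * (starRingEnd ℂ) (f x) =
      (if G.Adj x y then g x * (starRingEnd ℂ) (f x) else 0) -
      (if G.Adj y x then σ x y * g y * (starRingEnd ℂ) (f x) else 0) := by
    intro x y
    by_cases h : G.Adj x y
    · rw [if_pos h, if_pos h, if_pos h.symm]; ring
    · have h' : ¬ G.Adj y x := fun h0 => h h0.symm
      rw [if_neg h, if_neg h, if_neg h']; simp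
  simp only [h1, h2, Finset.sum_sub_distrib]
  congr 1
  rw [Finset.sum_comm]

lemma opr_inner (hσ : IsPotential G σ) (f : EuclideanSpace ℂ V) :
    RCLike.re (inner ℂ (opr G σ f) f) = energy G σ (WithLp.ofLp f) := by
  rw [opr_symm hσ f f, PiLp.inner_apply]
  have h := sum_conj_magLap hσ (WithLp.ofLp f)
  have h2 : ∑ i, inner ℂ (f i) (opr G σ f i) =
      ∑ x, (starRingEnd ℂ) (f x) * magLap G σ (WithLp.ofLp f) x := by
    refine Finset.sum_congr rfl fun x _ => ?_
    rw [RCLike.inner_apply, opr_apply, mul_comm]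
  rw [h2, h]
  simp

lemma norm_sq_eq (f : EuclideanSpace ℂ V) : ‖f‖ ^ 2 = ∑ x, ‖f x‖ ^ 2 := by
  rw [EuclideanSpace.norm_sq_eq]

/-- an eigenvalue satisfies `μ ‖f‖² = energy` -/
lemma eig_energy (hσ : IsPotential G σ) {f : V → ℂ} {μ : ℝ}
    (h : ∀ x, magLap G σ f x = (μ : ℂ) * f x) : energy G σ f = μ * ∑ x, ‖f x‖ ^ 2 := by
  have h1 := sum_conj_magLap hσ f
  have h2 : ∑ x, (starRingEnd ℂ) (f x) * magLap G σ f x = ((μ * ∑ x, ‖f x‖ ^ 2 : ℝ) : ℂ) := by
    push_cast
    rw [Finset.mul_sum]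
    refine Finset.sum_congr rfl fun x _ => ?_
    rw [h x, ← Complex.ofReal_pow, ← Complex.normSq_eq_norm_sq, Complex.normSq_eq_conj_mul_self]
    ring
  rw [h2] at h1
  exact_mod_cast h1.symm

lemma sum_pos_of_ne {f : V → ℂ} (hf : f ≠ 0) : 0 < ∑ x, ‖f x‖ ^ 2 := by
  obtain ⟨x, hx⟩ : ∃ x, f x ≠ 0 := by
    by_contra h
    push Not at h
    exact hf (funext h)
  exact Finset.sum_pos' (fun i _ => by positivity) ⟨x, Finset.mem_univ x, by positivity⟩

lemma exists_eig [Nonempty V] (hσ : IsPotential G σ) :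
    ∃ μ : ℝ, (∃ f : V → ℂ, f ≠ 0 ∧ ∀ x, magLap G σ f x = (μ : ℂ) * f x) ∧
      ∀ g : V → ℂ, μ * ∑ x, ‖g x‖ ^ 2 ≤ energy G σ g := by
  have hnt : Nontrivial (EuclideanSpace ℂ V) := by
    refine ⟨⟨WithLp.toLp 2 (fun _ => 1), 0, fun h => ?_⟩⟩
    have := congrFun (congrArg WithLp.ofLp h) (Classical.arbitrary V)
    simp at this
  have h := (opr_symm hσ).hasEigenvalue_iInf_of_finiteDimensional
  set R : ℝ := ⨅ x : { x : EuclideanSpace ℂ V // x ≠ 0 },
    RCLike.re (inner ℂ (opr G σ x) (x : EuclideanSpace ℂ V)) / ‖(x : EuclideanSpace ℂ V)‖ ^ 2 with hR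
  obtain ⟨v, hv⟩ := h.exists_hasEigenvector
  refine ⟨R, ⟨WithLp.ofLp v, ?_, ?_⟩, ?_⟩
  · intro h0
    exact hv.2 (by ext x; exact congrFun h0 x)
  · intro x
    have h1 := Module.End.mem_eigenspace_iff.1 hv.1
    have h2 := congrFun (congrArg WithLp.ofLp h1) x
    rw [opr_apply] at h2
    rw [h2]
    simp
  · intro g
    by_cases hg : g = 0
    · subst hg
      simp only [Pi.zero_apply, norm_zero]
      have := energy_nonneg (G := G) (σ := σ) (0 : V → ℂ)
      simpa using this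
    · set x : EuclideanSpace ℂ V := WithLp.toLp 2 g with hx
      have hx0 : x ≠ 0 := by
        intro h0
        exact hg (congrArg WithLp.ofLp h0)
      have hbdd : BddBelow (Set.range fun x : { x : EuclideanSpace ℂ V // x ≠ 0 } =>
          RCLike.re (inner ℂ (opr G σ x) (x : EuclideanSpace ℂ V)) /
            ‖(x : EuclideanSpace ℂ V)‖ ^ 2) := by
        refine ⟨0, ?_⟩
        rintro _ ⟨y, rfl⟩
        simp only
        rw [opr_inner hσ]
        have := energy_nonneg (G := G) (σ := σ) (WithLp.ofLp (y : EuclideanSpace ℂ V))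
        positivity
      have h3 : R ≤ _ := ciInf_le hbdd ⟨x, hx0⟩
      simp only at h3
      rw [opr_inner hσ, norm_sq_eq] at h3
      have h4 : 0 < ∑ i, ‖x i‖ ^ 2 := sum_pos_of_ne hg
      rw [le_div_iff₀ h4] at h3
      exact h3

lemma eigs_bddBelow (hσ : IsPotential G σ) :
    BddBelow {μ : ℝ | ∃ f : V → ℂ, f ≠ 0 ∧ ∀ x, magLap G σ f x = (μ : ℂ) * f x} := by
  refine ⟨0, ?_⟩
  rintro μ ⟨f, hf, hμ⟩
  have h1 := eig_energy hσ hμ
  have h2 := energy_nonneg (G := G) (σ := σ) f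
  rw [h1] at h2
  exact nonneg_of_mul_nonneg_left h2 (sum_pos_of_ne hf)

/-- Rayleigh upper bound. -/
theorem lam1_mul_le [Nonempty V] (hσ : IsPotential G σ) (f : V → ℂ) :
    lam1 G σ * ∑ x, ‖f x‖ ^ 2 ≤ energy G σ f := by
  obtain ⟨μ, h1, h2⟩ := exists_eig hσ
  have h3 : lam1 G σ ≤ μ := csInf_le (eigs_bddBelow hσ) h1
  refine le_trans ?_ (h2 f)
  exact mul_le_mul_of_nonneg_right h3 (Finset.sum_nonneg fun i _ => by positivity)

/-- Lower bound for the smallest eigenvalue from a lower bound of the quadratic form. -/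
theorem le_lam1 [Nonempty V] (hσ : IsPotential G σ) {c : ℝ}
    (h : ∀ f : V → ℂ, c * ∑ x, ‖f x‖ ^ 2 ≤ energy G σ f) : c ≤ lam1 G σ := by
  obtain ⟨μ, h1, _⟩ := exists_eig hσ
  refine le_csInf ⟨μ, h1⟩ ?_
  rintro μ' ⟨f, hf, hμ⟩
  have h3 := h f
  rw [eig_energy hσ hμ] at h3
  exact le_of_mul_le_mul_right h3 (sum_pos_of_ne hf)

/-- The smallest eigenvalue is an eigenvalue. -/
theorem lam1_mem [Nonempty V] (hσ : IsPotential G σ) :
    ∃ f : V → ℂ, f ≠ 0 ∧ ∀ x, magLap G σ f x = (lam1 G σ : ℂ) * f x := by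
  obtain ⟨μ, h1, h2⟩ := exists_eig hσ
  have h3 : lam1 G σ = μ := le_antisymm (csInf_le (eigs_bddBelow hσ) h1) (le_lam1 hσ h2)
  rw [h3]
  exact h1

lemma lam1_nonneg [Nonempty V] (hσ : IsPotential G σ) : 0 ≤ lam1 G σ :=
  le_lam1 hσ fun f => by simpa using energy_nonneg f

lemma lam1_le_card [Nonempty V] (hσ : IsPotential G σ) : lam1 G σ ≤ 4 * Fintype.card V ^ 2 := by
  classical
  set x₀ := Classical.arbitrary V
  have h := lam1_mul_le hσ (fun x => if x = x₀ then (1 : ℂ) else 0)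
  have h1 : ∑ x, ‖(if x = x₀ then (1 : ℂ) else 0)‖ ^ 2 = 1 := by
    rw [Finset.sum_eq_single x₀]
    · simp
    · intro b _ hb; simp [hb]
    · simp
  rw [h1, mul_one] at h
  refine h.trans ?_
  unfold energy
  have h2 : ∑ x, ∑ y, (if G.Adj x y then ‖(if x = x₀ then (1 : ℂ) else 0) -
      σ x y * (if y = x₀ then (1 : ℂ) else 0)‖ ^ 2 else 0) ≤
      ∑ _x : V, ∑ _y : V, (4 : ℝ) := by
    refine Finset.sum_le_sum fun x _ => Finset.sum_le_sum fun y _ => ?_
    by_cases hxy : G.Adj x y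
    · rw [if_pos hxy]
      have h3 : ‖(if x = x₀ then (1 : ℂ) else 0) - σ x y * (if y = x₀ then (1 : ℂ) else 0)‖ ≤ 2 := by
        refine (norm_sub_le _ _).trans ?_
        rw [norm_mul, (hσ x y hxy).1]
        have e1 : ‖(if x = x₀ then (1 : ℂ) else 0)‖ ≤ 1 := by split_ifs <;> simp
        have e2 : ‖(if y = x₀ then (1 : ℂ) else 0)‖ ≤ 1 := by split_ifs <;> simp
        linarith
      calc _ ≤ (2 : ℝ) ^ 2 := by gcongr
        _ = 4 := by norm_num
    · rw [if_neg hxy]; norm_num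
  have h4 : ∑ _x : V, ∑ _y : V, (4 : ℝ) = 4 * (Fintype.card V : ℝ) ^ 2 := by
    simp
    ring
  rw [h4] at h2
  have : 0 ≤ 4 * (Fintype.card V : ℝ) ^ 2 := by positivity
  linarith

lemma nu_bddAbove [Nonempty V] : BddAbove {t : ℝ | ∃ σ, IsPotential G σ ∧ lam1 G σ = t} := by
  refine ⟨4 * Fintype.card V ^ 2, ?_⟩
  rintro t ⟨σ, hσ, rfl⟩
  exact lam1_le_card hσ

theorem lam1_le_nu [Nonempty V] (hσ : IsPotential G σ) : lam1 G σ ≤ nu G :=
  le_csSup nu_bddAbove ⟨σ, hσ, rfl⟩

lemma isPotential_one : IsPotential G (fun _ _ => 1) := fun x y _ => by simp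

lemma isPotential_neg_one : IsPotential G (fun _ _ => -1) := fun x y _ => by simp

theorem nu_le {c : ℝ} (h : ∀ σ, IsPotential G σ → lam1 G σ ≤ c) : nu G ≤ c := by
  have hne : {t : ℝ | ∃ σ, IsPotential G σ ∧ lam1 G σ = t}.Nonempty :=
    ⟨_, _, isPotential_one, rfl⟩
  apply csSup_le hne
  rintro t ⟨σ, hσ, rfl⟩
  exact h σ hσ

end Pool.Agent.Q260.MG
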