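import Pool.Agent.W130.RC.Vertex

/-! Vertex recursion for the matching expansion with a diagonal matrix (adapted from
`Pool.Agent.W130.RC.Vertex`, which treats scalar matrices), and positivity from a family of
lower bounds for the ratios. -/

set_option autoImplicit false

open Matrix Pool.Agent.W130.RC

namespace Pool.Agent.Q260.MG

variable {N : Type*} [Fintype N] [DecidableEq N]

lemma det_Rr_diag (m : N → ℝ) (S : Finset N) :
    (Rr S (Matrix.diagonal m)).det = ∏ i ∈ Sᶜ, m i := by
  have h : Rr S (Matrix.diagonal m) = Matrix.diagonal (fun i => if i ∈ S then 1 else m i) := by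
    ext i j
    simp only [Rr_apply, Matrix.diagonal_apply]
    by_cases hi : i ∈ S <;> by_cases hij : i = j <;> simp [hi, hij]
  rw [h, Matrix.det_diagonal, Finset.prod_ite, Finset.prod_const_one, one_mul]
  congr 1
  ext i; simp

theorem vertex_rec_diag (m : N → ℝ) (L : List (N × N)) (hL : ∀ e ∈ L, e.1 ≠ e.2) :
    ∀ (S : Finset N) (v : N), v ∉ S →
      mu (Matrix.diagonal m) L S = m v * mu (Matrix.diagonal m) L (insert v S)
        - (L.map (ctr S v (mu (Matrix.diagonal m) L))).sum := by
  induction L with
  | nil =>
    intro S v hv
    simp only [mu, List.map_nil, List.sum_nil, sub_zero]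
    rw [det_Rr_diag, det_Rr_diag, Finset.compl_insert,
      Finset.mul_prod_erase _ _ (Finset.mem_compl.2 hv)]
  | cons e L ih =>
    intro S v hv
    obtain ⟨a, b⟩ := e
    have hab : a ≠ b := hL (a, b) List.mem_cons_self
    have ih' := ih (fun e he => hL e (List.mem_cons_of_mem _ he))
    set f' : Finset N → ℝ := mu (Matrix.diagonal m) L with hf'
    have hmu : ∀ T, mu (Matrix.diagonal m) ((a, b) :: L) T
        = f' T - if a ∉ T ∧ b ∉ T then f' (insert a (insert b T)) else 0 := by
      intro T; simp only [mu, hf']
    set f : Finset N → ℝ := mu (Matrix.diagonal m) ((a, b) :: L) with hf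
    rw [List.map_cons, List.sum_cons]
    by_cases hva : v = a
    · subst hva
      have hfv : ∀ T, v ∈ T → f T = f' T := by
        intro T hT
        rw [hmu T, if_neg (fun h => h.1 hT), sub_zero]
      have h1 : (L.map (ctr S v f)).sum = (L.map (ctr S v f')).sum := by
        congr 1
        apply List.map_congr_left
        intro e _
        exact ctr_congr S v f f' e (fun T hT _ => hfv T hT)
      rw [h1, hmu S, ih' S v hv, hfv _ (Finset.mem_insert_self _ _)]
      have h2 : ctr S v f (v, b) = if v ∉ S ∧ b ∉ S then f' (insert v (insert b S)) else 0 := by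
        unfold ctr
        simp only [true_and]
        rw [if_neg (show ¬ (b = v ∧ v ∉ insert v S) from fun h => hab h.1.symm), add_zero]
        by_cases hb : b ∈ S
        · rw [if_neg (fun h => h (Finset.mem_insert_of_mem hb)), if_neg (fun h => h.2 hb)]
        · rw [if_pos (by simp [hb, Ne.symm hab]), if_pos ⟨hv, hb⟩, hfv _ (by simp),
            Finset.insert_comm]
      rw [h2]; ring
    by_cases hvb : v = b
    · subst hvb
      have hfv : ∀ T, v ∈ T → f T = f' T := by
        intro T hT
        rw [hmu T, if_neg (fun h => h.2 hT), sub_zero]
      have h1 : (L.map (ctr S v f)).sum = (L.map (ctr S v f')).sum := by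
        congr 1
        apply List.map_congr_left
        intro e _
        exact ctr_congr S v f f' e (fun T hT _ => hfv T hT)
      rw [h1, hmu S, ih' S v hv, hfv _ (Finset.mem_insert_self _ _)]
      have h2 : ctr S v f (a, v) = if a ∉ S ∧ v ∉ S then f' (insert a (insert v S)) else 0 := by
        unfold ctr
        simp only [true_and]
        rw [if_neg (show ¬ (a = v ∧ v ∉ insert v S) from fun h => hab h.1), zero_add]
        by_cases hb : a ∈ S
        · rw [if_neg (fun h => h (Finset.mem_insert_of_mem hb)), if_neg (fun h => h.1 hb)]
        · rw [if_pos (by simp [hb, hab]), if_pos ⟨hb, hv⟩, hfv _ (by simp)]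
      rw [h2]; ring
    · have hctr0 : ctr S v f (a, b) = 0 := by
        unfold ctr
        rw [if_neg (fun h => hva h.1.symm), if_neg (fun h => hvb h.1.symm), add_zero]
      rw [hctr0, zero_add, hmu S, hmu (insert v S), ih' S v hv]
      by_cases hs : a ∉ S ∧ b ∉ S
      · have hs' : a ∉ insert v S ∧ b ∉ insert v S := by
          simp [hs.1, hs.2, Ne.symm hva, Ne.symm hvb]
        rw [if_pos hs, if_pos hs']
        have hv' : v ∉ insert a (insert b S) := by simp [hva, hvb, hv]
        rw [ih' _ v hv']
        have hsum : (L.map (ctr S v f)).sum = (L.map (ctr S v f')).sum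
            - (L.map (ctr (insert a (insert b S)) v f')).sum := by
          clear ih ih' hL
          have hterm : ∀ e : N × N, ctr S v f e = ctr S v f' e
              - ctr (insert a (insert b S)) v f' e := by
            intro e
            obtain ⟨c, d⟩ := e
            have hone : ∀ w : N, (w ∉ insert v S) → f (insert w (insert v S))
                = f' (insert w (insert v S)) - if w ∉ insert v (insert a (insert b S)) then
                  f' (insert w (insert v (insert a (insert b S)))) else 0 := by
              intro w hw
              rw [hmu]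
              congr 1
              by_cases hwa : w = a
              · subst hwa
                rw [if_neg (by simp), if_neg (by simp)]
              · by_cases hwb : w = b
                · subst hwb
                  rw [if_neg (by simp), if_neg (by simp)]
                · simp only [Finset.mem_insert, not_or] at hw
                  rw [if_pos, if_pos]
                  · congr 1
                    ext z; simp only [Finset.mem_insert]; tauto
                  · simp [hw.1, hw.2, hwa, hwb]
                  · simp [Ne.symm hwa, Ne.symm hwb, Ne.symm hva, Ne.symm hvb, hs.1, hs.2]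
            have hsub : ∀ w : N, w ∉ insert v (insert a (insert b S)) → w ∉ insert v S := by
              intro w hw h
              apply hw
              simp only [Finset.mem_insert] at h ⊢
              tauto
            unfold ctr
            simp only
            have t1 : (if c = v ∧ d ∉ insert v S then f (insert d (insert v S)) else 0)
                = (if c = v ∧ d ∉ insert v S then f' (insert d (insert v S)) else 0)
                  - (if c = v ∧ d ∉ insert v (insert a (insert b S)) then
                    f' (insert d (insert v (insert a (insert b S)))) else 0) := by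
              by_cases h1 : c = v ∧ d ∉ insert v S
              · rw [if_pos h1, if_pos h1, hone d h1.2]
                congr 1
                by_cases h2 : d ∉ insert v (insert a (insert b S))
                · rw [if_pos h2, if_pos ⟨h1.1, h2⟩]
                · rw [if_neg h2, if_neg (fun h => h2 h.2)]
              · rw [if_neg h1, if_neg h1, if_neg (fun h => h1 ⟨h.1, hsub d h.2⟩), sub_zero]
            have t2 : (if d = v ∧ c ∉ insert v S then f (insert c (insert v S)) else 0)
                = (if d = v ∧ c ∉ insert v S then f' (insert c (insert v S)) else 0)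
                  - (if d = v ∧ c ∉ insert v (insert a (insert b S)) then
                    f' (insert c (insert v (insert a (insert b S)))) else 0) := by
              by_cases h1 : d = v ∧ c ∉ insert v S
              · rw [if_pos h1, if_pos h1, hone c h1.2]
                congr 1
                by_cases h2 : c ∉ insert v (insert a (insert b S))
                · rw [if_pos h2, if_pos ⟨h1.1, h2⟩]
                · rw [if_neg h2, if_neg (fun h => h2 h.2)]
              · rw [if_neg h1, if_neg h1, if_neg (fun h => h1 ⟨h.1, hsub c h.2⟩), sub_zero]
            rw [t1, t2]; ring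
          have hfun : ctr S v f = fun e => ctr S v f' e
              - ctr (insert a (insert b S)) v f' e := funext hterm
          rw [hfun]
          exact list_sum_map_sub L _ _
        rw [hsum]
        have hset : insert v (insert a (insert b S)) = insert a (insert b (insert v S)) := by
          ext z; simp only [Finset.mem_insert]; tauto
        rw [hset]
        ring
      · have hs' : ¬ (a ∉ insert v S ∧ b ∉ insert v S) := by
          intro h
          apply hs
          simp only [Finset.mem_insert, not_or] at h
          exact ⟨h.1.2, h.2.2⟩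
        rw [if_neg hs, if_neg hs']
        have h1 : (L.map (ctr S v f)).sum = (L.map (ctr S v f')).sum := by
          congr 1
          apply List.map_congr_left
          intro e _
          apply ctr_congr S v f f' e
          intro T _ hT
          rw [hmu T, if_neg, sub_zero]
          intro h
          apply hs
          exact ⟨fun h' => h.1 (hT h'), fun h' => h.2 (hT h')⟩
        rw [h1]; ring

/-- `L` lists every edge of `G` exactly once, in one of its two orientations. -/
structure EdgeList (G : SimpleGraph N) (L : List (N × N)) : Prop where
  nodup : L.Nodup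
  adj : ∀ e ∈ L, G.Adj e.1 e.2
  cover : ∀ u v, G.Adj u v → (u, v) ∈ L ∨ (v, u) ∈ L
  once : ∀ u v, (u, v) ∈ L → (v, u) ∉ L

lemma exists_edgeList (G : SimpleGraph N) : ∃ L, EdgeList G L := by
  classical
  have hout : ∀ e : Sym2 N, s((Quot.out e).1, (Quot.out e).2) = e := fun e => Quot.out_eq e
  refine ⟨G.edgeFinset.toList.map Quot.out, ?_, ?_, ?_, ?_⟩
  · apply List.Nodup.map
    · intro e e' h
      rw [← hout e, ← hout e', h]
    · exact Finset.nodup_toList _
  · intro e he
    rw [List.mem_map] at he
    obtain ⟨a, ha, rfl⟩ := he
    rw [Finset.mem_toList, SimpleGraph.mem_edgeFinset] at ha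
    rw [← hout a, SimpleGraph.mem_edgeSet] at ha
    exact ha
  · intro u v huv
    have h1 : s(u, v) ∈ G.edgeFinset.toList := by
      rw [Finset.mem_toList, SimpleGraph.mem_edgeFinset]
      exact huv
    have h2 := hout s(u, v)
    rw [Sym2.eq_iff] at h2
    rcases h2 with ⟨h3, h4⟩ | ⟨h3, h4⟩
    · left
      rw [List.mem_map]
      exact ⟨_, h1, Prod.ext h3 h4⟩
    · right
      rw [List.mem_map]
      exact ⟨_, h1, Prod.ext h3 h4⟩
  · intro u v huv hvu
    rw [List.mem_map] at huv hvu
    obtain ⟨a, ha, ha'⟩ := huv
    obtain ⟨b, hb, hb'⟩ := hvu
    have h1 : a = s(u, v) := by rw [← hout a, ha']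
    have h2 : b = s(v, u) := by rw [← hout b, hb']
    have h3 : a = b := by rw [h1, h2, Sym2.eq_swap]
    rw [h3, hb'] at ha'
    have h4 : v = u := congrArg Prod.fst ha'
    rw [Finset.mem_toList, SimpleGraph.mem_edgeFinset, h1, SimpleGraph.mem_edgeSet, h4] at ha
    exact G.irrefl ha

lemma sum_ctr {G : SimpleGraph N} [DecidableRel G.Adj] {L : List (N × N)} (hL : EdgeList G L)
    (S : Finset N) (v : N) (f : Finset N → ℝ) :
    (L.map (ctr S v f)).sum =
      ∑ w ∈ (G.neighborFinset v).filter (fun w => w ∉ insert v S), f (insert w (insert v S)) := by
  rw [← List.sum_toFinset _ hL.nodup]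
  have h1 : ∑ e ∈ L.toFinset, ctr S v f e =
      ∑ e : N × N, if e ∈ L then ctr S v f e else 0 := by
    rw [← Finset.sum_filter]
    congr 1
    ext e; simp
  rw [h1, Fintype.sum_prod_type]
  unfold ctr
  have h2 : ∀ x y : N, (if (x, y) ∈ L then
      ((if x = v ∧ y ∉ insert v S then f (insert y (insert v S)) else 0) +
        (if y = v ∧ x ∉ insert v S then f (insert x (insert v S)) else 0)) else 0) =
      (if x = v then (if (v, y) ∈ L ∧ y ∉ insert v S then f (insert y (insert v S)) else 0)
        else 0) +
      (if y = v then (if (x, v) ∈ L ∧ x ∉ insert v S then f (insert x (insert v S)) else 0)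
        else 0) := by
    intro x y
    by_cases hx : x = v
    · subst hx
      by_cases hy : y = x
      · subst hy; simp
      · simp only [true_and, hy, false_and, if_false, if_true, add_zero]
        by_cases h : (x, y) ∈ L <;> simp [h]
    · by_cases hy : y = v
      · subst hy
        simp only [true_and, hx, false_and, if_false, if_true, zero_add]
        by_cases h : (x, y) ∈ L <;> simp [h]
      · simp [hx, hy]
  simp only [h2, Finset.sum_add_distrib]
  rw [Finset.sum_comm (f := fun x y => if x = v then
    (if (v, y) ∈ L ∧ y ∉ insert v S then f (insert y (insert v S)) else 0) else 0)]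
  simp only [Finset.sum_ite_eq', Finset.mem_univ, if_true]
  rw [← Finset.sum_add_distrib, Finset.sum_filter, SimpleGraph.neighborFinset_eq_filter,
    Finset.sum_filter]
  refine Finset.sum_congr rfl fun w _ => ?_
  by_cases hw : w ∉ insert v S
  · simp only [hw, and_true, if_true]
    by_cases hadj : G.Adj v w
    · rcases hL.cover v w hadj with h | h
      · have := hL.once v w h
        simp [h, this, hadj]
      · have := hL.once w v h
        simp [h, this, hadj]
    · have h1 : (v, w) ∉ L := fun h => hadj (hL.adj _ h)
      have h2 : (w, v) ∉ L := fun h => hadj (hL.adj _ h).symm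
      simp [h1, h2, hadj]
  · rw [if_neg (fun h => hw h.2), if_neg (fun h => hw h.2), if_neg hw]
    simp

lemma mu_univ (m : N → ℝ) (L : List (N × N)) : mu (Matrix.diagonal m) L Finset.univ = 1 := by
  induction L with
  | nil => rw [mu, det_Rr_diag]; simp
  | cons e L ih => rw [mu, ih]; simp

/-- Positivity of the matching expansion from lower bounds of the ratios. -/
theorem mu_pos_of_bounds {G : SimpleGraph N} [DecidableRel G.Adj] {L : List (N × N)}
    (hL : EdgeList G L) (m : N → ℝ) (ρ : Finset N → N → ℝ)
    (hρ : ∀ S v, v ∉ S → 0 < ρ S v)
    (hrec : ∀ S v, v ∉ S → ρ S v +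
      ∑ w ∈ (G.neighborFinset v).filter (fun w => w ∉ insert v S), (ρ (insert v S) w)⁻¹ ≤ m v) :
    ∀ (n : ℕ) (S : Finset N), (Sᶜ).card = n → 0 < mu (Matrix.diagonal m) L S ∧
      ∀ v, v ∉ S → ρ S v * mu (Matrix.diagonal m) L (insert v S) ≤
        mu (Matrix.diagonal m) L S := by
  have hLne : ∀ e ∈ L, e.1 ≠ e.2 := fun e he => (hL.adj e he).ne
  intro n
  induction n with
  | zero =>
    intro S hS
    have hSu : S = Finset.univ := by
      rw [Finset.card_eq_zero] at hS
      exact (Finset.compl_eq_empty_iff S).1 hS
    subst hSu
    refine ⟨by rw [mu_univ]; exact one_pos, fun v hv => absurd (Finset.mem_univ v) hv⟩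
  | succ n ih =>
    intro S hS
    have hstep : ∀ v, v ∉ S → 0 < mu (Matrix.diagonal m) L (insert v S) ∧
        ρ S v * mu (Matrix.diagonal m) L (insert v S) ≤ mu (Matrix.diagonal m) L S := by
      intro v hv
      have hc : ((insert v S)ᶜ).card = n := by
        rw [Finset.compl_insert, Finset.card_erase_of_mem (Finset.mem_compl.2 hv), hS]
        omega
      obtain ⟨i1, i2⟩ := ih (insert v S) hc
      refine ⟨i1, ?_⟩
      rw [vertex_rec_diag m L hLne S v hv, sum_ctr hL]
      have hb : ∑ w ∈ (G.neighborFinset v).filter (fun w => w ∉ insert v S),
          mu (Matrix.diagonal m) L (insert w (insert v S)) ≤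
          ∑ w ∈ (G.neighborFinset v).filter (fun w => w ∉ insert v S),
          (ρ (insert v S) w)⁻¹ * mu (Matrix.diagonal m) L (insert v S) := by
        refine Finset.sum_le_sum fun w hw => ?_
        have hw' := (Finset.mem_filter.1 hw).2
        have h1 := i2 w hw'
        have h2 := hρ (insert v S) w hw'
        rw [inv_mul_eq_div, le_div_iff₀ h2]
        linarith
      rw [← Finset.sum_mul] at hb
      have h3 := mul_le_mul_of_nonneg_right (hrec S v hv) i1.le
      rw [add_mul] at h3
      linarith
    have hne : (Sᶜ).Nonempty := Finset.card_pos.1 (by omega)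
    obtain ⟨v, hv⟩ := hne
    rw [Finset.mem_compl] at hv
    obtain ⟨h1, h2⟩ := hstep v hv
    exact ⟨lt_of_lt_of_le (mul_pos (hρ S v hv) h1) h2, fun v hv => (hstep v hv).2⟩

end Pool.Agent.Q260.MG
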