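import Pool.Agent.Q260.MG.Runs

/-! The second smallest Laplacian eigenvalue: definition and upper bounds. -/

set_option autoImplicit false

open Matrix

namespace Pool.Agent.Q260.MG

variable {N : Type*} [Fintype N] [DecidableEq N]

lemma lap_herm (G : SimpleGraph N) [DecidableRel G.Adj] : (G.lapMatrix ℝ).IsHermitian := by
  unfold Matrix.IsHermitian
  rw [Matrix.conjTranspose_eq_transpose_of_trivial]
  exact G.isSymm_lapMatrix (R := ℝ)

/-- `λ₂(G)`: the second smallest eigenvalue of the Laplacian `D - A`, eigenvalues counted with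
multiplicity (`eigenvalues₀` lists them in decreasing order). -/
noncomputable def lam2 (G : SimpleGraph N) [DecidableRel G.Adj] : ℝ :=
  if h : 2 ≤ Fintype.card N then
    (lap_herm G).eigenvalues₀ ⟨Fintype.card N - 2, by omega⟩ else 0

variable (G : SimpleGraph N) [DecidableRel G.Adj]

lemma quad_nonneg (f : N → ℝ) : 0 ≤ f ⬝ᵥ (G.lapMatrix ℝ *ᵥ f) := by
  have h := (G.posSemidef_lapMatrix ℝ).dotProduct_mulVec_nonneg f
  simpa using h

lemma quad_add_const (a b : ℝ) (f : N → ℝ) :
    (a • (fun _ => (1 : ℝ)) + b • f) ⬝ᵥ (G.lapMatrix ℝ *ᵥ (a • (fun _ => (1 : ℝ)) + b • f)) =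
      b ^ 2 * (f ⬝ᵥ (G.lapMatrix ℝ *ᵥ f)) := by
  have h1 : G.lapMatrix ℝ *ᵥ (fun _ => (1 : ℝ)) = 0 := G.lapMatrix_mulVec_const_eq_zero
  have h2 : (fun _ => (1 : ℝ)) ⬝ᵥ (G.lapMatrix ℝ *ᵥ f) = 0 := by
    rw [dotProduct_mulVec, ← mulVec_transpose, G.isSymm_lapMatrix (R := ℝ), h1, zero_dotProduct]
  rw [mulVec_add, mulVec_smul, mulVec_smul, h1, smul_zero, zero_add, add_dotProduct,
    smul_dotProduct, dotProduct_smul, h2, smul_dotProduct, dotProduct_smul]
  simp only [smul_eq_mul]
  ring

lemma lam2_mul_le {f : N → ℝ} (hf : ∑ x, f x = 0) :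
    lam2 G * (f ⬝ᵥ f) ≤ f ⬝ᵥ (G.lapMatrix ℝ *ᵥ f) := by
  have hQ := quad_nonneg G f
  have hF : 0 ≤ f ⬝ᵥ f := Finset.sum_nonneg fun i _ => mul_self_nonneg _
  by_cases hneg : lam2 G ≤ 0
  · have : lam2 G * (f ⬝ᵥ f) ≤ 0 := mul_nonpos_of_nonpos_of_nonneg hneg hF
    linarith
  push Not at hneg
  have hcard : 2 ≤ Fintype.card N := by
    by_contra h
    unfold lam2 at hneg
    rw [dif_neg h] at hneg
    exact lt_irrefl _ hneg
  have hlam : lam2 G = (lap_herm G).eigenvalues₀ ⟨Fintype.card N - 2, by omega⟩ := by
    unfold lam2; rw [dif_pos hcard]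
  set hA := lap_herm G with hAdef
  set A := G.lapMatrix ℝ with hAA
  have star_tr : ∀ M : Matrix N N ℝ, star M = Mᵀ := by
    intro M; rw [Matrix.star_eq_conjTranspose, Matrix.conjTranspose_eq_transpose_of_trivial]
  obtain ⟨V, hV⟩ : ∃ V : Matrix N N ℝ, V = (hA.eigenvectorUnitary : Matrix N N ℝ) := ⟨_, rfl⟩
  have o1 : Vᵀ * V = 1 := by rw [← star_tr, hV]; exact Unitary.coe_star_mul_self _
  have o2 : V * Vᵀ = 1 := mul_eq_one_comm.1 o1
  have e1 : A = V * diagonal (hA.eigenvalues) * Vᵀ := by
    have := hA.spectral_theorem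
    rw [Unitary.conjStarAlgAut_apply, ← Unitary.coe_star] at this
    rw [← star_tr, hV]
    exact this
  have e2 : ∀ y : N → ℝ, y ⬝ᵥ (A *ᵥ y) = ∑ i, hA.eigenvalues i * ((Vᵀ *ᵥ y) i * (Vᵀ *ᵥ y) i) := by
    intro y
    conv_lhs => rw [e1]
    rw [← mulVec_mulVec, ← mulVec_mulVec, dotProduct_mulVec, ← mulVec_transpose, dotProduct]
    apply Finset.sum_congr rfl
    intro i _
    rw [mulVec_diagonal]
    ring
  have e3 : ∀ y : N → ℝ, y ⬝ᵥ y = ∑ i, (Vᵀ *ᵥ y) i * (Vᵀ *ᵥ y) i := by
    intro y
    have : y ⬝ᵥ y = (Vᵀ *ᵥ y) ⬝ᵥ (Vᵀ *ᵥ y) := by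
      rw [dotProduct_mulVec, vecMul_transpose, mulVec_mulVec, o2, one_mulVec]
    rw [this]; rfl
  set eq := (Fintype.equivOfCardEq (Fintype.card_fin (Fintype.card N)) : Fin (Fintype.card N) ≃ N)
    with heq
  set i0 : N := eq ⟨Fintype.card N - 1, by omega⟩ with hi0
  have hev : ∀ i, i ≠ i0 → lam2 G ≤ hA.eigenvalues i := by
    intro i hi
    rw [hlam]
    change hA.eigenvalues₀ _ ≤ hA.eigenvalues₀ (eq.symm i)
    apply hA.eigenvalues₀_antitone
    rw [Fin.le_def]
    have h1 : (eq.symm i).val < Fintype.card N := (eq.symm i).2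
    have h2 : (eq.symm i).val ≠ Fintype.card N - 1 := by
      intro h
      apply hi
      have h3 : eq.symm i = ⟨Fintype.card N - 1, by omega⟩ := Fin.ext h
      rw [hi0, ← h3]
      simp
    simp only
    omega
  have hmain : ∀ y : N → ℝ, (Vᵀ *ᵥ y) i0 = 0 → lam2 G * (y ⬝ᵥ y) ≤ y ⬝ᵥ (A *ᵥ y) := by
    intro y hy
    rw [e2, e3, Finset.mul_sum]
    apply Finset.sum_le_sum
    intro i _
    by_cases h : i = i0
    · rw [h, hy]; simp
    · exact mul_le_mul_of_nonneg_right (hev i h) (mul_self_nonneg _)
  set one : N → ℝ := fun _ => 1 with hone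
  set α := (Vᵀ *ᵥ one) i0 with hα
  set β := (Vᵀ *ᵥ f) i0 with hβ
  have hlin : ∀ a b : ℝ, (Vᵀ *ᵥ (a • one + b • f)) i0 = a * α + b * β := by
    intro a b
    rw [mulVec_add, mulVec_smul, mulVec_smul]
    simp [hα, hβ]
  have hnorm : ∀ a b : ℝ, (a • one + b • f) ⬝ᵥ (a • one + b • f) =
      a ^ 2 * (one ⬝ᵥ one) + b ^ 2 * (f ⬝ᵥ f) := by
    intro a b
    have h1 : one ⬝ᵥ f = 0 := by simpa [hone, dotProduct] using hf
    have h2 : f ⬝ᵥ one = 0 := by rw [dotProduct_comm]; exact h1
    rw [add_dotProduct, dotProduct_add, dotProduct_add, smul_dotProduct, smul_dotProduct,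
      dotProduct_smul, dotProduct_smul, smul_dotProduct, smul_dotProduct, dotProduct_smul,
      dotProduct_smul, h1, h2]
    simp only [smul_eq_mul]
    ring
  have h11 : 0 < one ⬝ᵥ one := by
    simp only [hone, dotProduct, mul_one, Finset.sum_const, Finset.card_univ, nsmul_eq_mul]
    have : (0 : ℝ) < Fintype.card N := by
      have : 0 < Fintype.card N := by omega
      exact_mod_cast this
    linarith
  by_cases hα0 : α = 0
  · by_cases hβ0 : β = 0
    · exact hmain f hβ0
    · exfalso
      have h := hmain one hα0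
      have h1 : one ⬝ᵥ (A *ᵥ one) = 0 := by
        have : A *ᵥ one = 0 := G.lapMatrix_mulVec_const_eq_zero
        rw [this, dotProduct_zero]
      rw [h1] at h
      have := mul_pos hneg h11
      linarith
  · have h := hmain (β • one + (-α) • f) (by rw [hlin]; ring)
    rw [hnorm, quad_add_const G β (-α) f] at h
    have hα2 : 0 < (-α) ^ 2 := by
      rw [neg_sq]
      positivity
    have h3 : 0 ≤ lam2 G * (β ^ 2 * (one ⬝ᵥ one)) := by positivity
    have h4 : (-α) ^ 2 * (lam2 G * (f ⬝ᵥ f)) ≤ (-α) ^ 2 * (f ⬝ᵥ (A *ᵥ f)) := by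
      rw [mul_add] at h
      linarith
    exact le_of_mul_le_mul_left h4 hα2

/-- `λ₂ ≤ 2 deg(v)` -/
lemma lam2_le_degree (v : N) : lam2 G ≤ 2 * G.degree v := by
  have hd : (0 : ℝ) ≤ G.degree v := Nat.cast_nonneg _
  by_cases hcard : 2 ≤ Fintype.card N
  · have hn : (2 : ℝ) ≤ Fintype.card N := by exact_mod_cast hcard
    set n : ℝ := (Fintype.card N : ℝ) with hndef
    set f : N → ℝ := fun x => (if x = v then 1 else 0) - 1 / n with hf
    have hsum : ∑ x, f x = 0 := by
      simp only [hf, Finset.sum_sub_distrib, Finset.sum_ite_eq', Finset.mem_univ, if_true,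
        Finset.sum_const, Finset.card_univ, nsmul_eq_mul]
      rw [← hndef]
      field_simp
      ring
    have h := lam2_mul_le G hsum
    have h1 : f ⬝ᵥ f = 1 - 1 / n := by
      have : ∀ x, f x * f x = (if x = v then 1 - 2 / n else 0) + 1 / n * (1 / n) := by
        intro x
        simp only [hf]
        split_ifs <;> ring
      simp only [dotProduct, this, Finset.sum_add_distrib, Finset.sum_ite_eq', Finset.mem_univ,
        if_true, Finset.sum_const, Finset.card_univ, nsmul_eq_mul]
      rw [← hndef]
      field_simp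
      ring
    have h2 : f ⬝ᵥ (G.lapMatrix ℝ *ᵥ f) = G.degree v := by
      have e1 : f = (-(1 / n)) • (fun _ => (1 : ℝ)) + (1 : ℝ) • (Pi.single v 1 : N → ℝ) := by
        funext x
        simp only [hf, Pi.add_apply, Pi.smul_apply, smul_eq_mul, Pi.single_apply]
        ring
      rw [e1, quad_add_const, one_pow, one_mul, single_one_dotProduct,
        SimpleGraph.lapMatrix_mulVec_apply]
      simp
    rw [h1, h2] at h
    by_contra hcon
    push Not at hcon
    have h3 : 1 / n ≤ 1 / 2 := one_div_le_one_div_of_le (by norm_num) hn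
    have h4 : 0 ≤ lam2 G := by linarith
    nlinarith
  · unfold lam2
    rw [dif_neg hcard]
    linarith

lemma sin_sum (l : ℕ) (hl : 0 < l) :
    ∑ i ∈ Finset.range l, Real.sin (2 * Real.pi * (i + 1) / l) = 0 := by
  obtain ⟨k, rfl⟩ : ∃ k, l = k + 1 := ⟨l - 1, by omega⟩
  have hk : ((k + 1 : ℕ) : ℝ) ≠ 0 := by positivity
  rw [Finset.sum_range_succ]
  have h0 : Real.sin (2 * Real.pi * ((k : ℝ) + 1) / ((k + 1 : ℕ) : ℝ)) = 0 := by
    have : 2 * Real.pi * ((k : ℝ) + 1) / ((k + 1 : ℕ) : ℝ) = 2 * Real.pi := by
      push_cast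
      field_simp
    rw [this, Real.sin_two_pi]
  rw [h0, add_zero]
  have h1 := Finset.sum_range_reflect
    (fun i : ℕ => Real.sin (2 * Real.pi * ((i : ℝ) + 1) / ((k + 1 : ℕ) : ℝ))) k
  have h2 : ∑ j ∈ Finset.range k,
      Real.sin (2 * Real.pi * (((k - 1 - j : ℕ) : ℝ) + 1) / ((k + 1 : ℕ) : ℝ)) =
      -∑ i ∈ Finset.range k, Real.sin (2 * Real.pi * ((i : ℝ) + 1) / ((k + 1 : ℕ) : ℝ)) := by
    rw [← Finset.sum_neg_distrib]
    refine Finset.sum_congr rfl fun j hj => ?_
    have hj' := Finset.mem_range.1 hj
    have e : ((k - 1 - j : ℕ) : ℝ) = (k : ℝ) - 1 - j := by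
      have : k - 1 - j + (j + 1) = k := by omega
      have h3 : (((k - 1 - j + (j + 1) : ℕ)) : ℝ) = k := by rw [this]
      push_cast at h3
      linarith
    rw [e, ← Real.sin_two_pi_sub]
    congr 1
    push_cast
    field_simp
    ring
  rw [h2] at h1
  linarith

/-- a path of `l ≥ 3` degree-two vertices bounds `λ₂` -/
lemma lam2_le_run {v : N} {l : ℕ} (hl : 3 ≤ l) {p : ℕ → N} (hp : Run G ∅ v l p) :
    lam2 G ≤ (2 * Real.pi / l) ^ 2 := by
  classical
  have hl0 : (0 : ℝ) < l := by
    have : 0 < l := by omega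
    exact_mod_cast this
  set θ : ℝ := 2 * Real.pi / l with hθ
  set s : ℕ → ℝ := fun i => Real.sin (θ * i) with hs
  have hs0 : s 0 = 0 := by simp [hs]
  have hsl : s l = 0 := by
    simp only [hs, hθ]
    rw [div_mul_cancel₀ _ hl0.ne', Real.sin_two_pi]
  have hrec : ∀ i, s i + s (i + 2) = 2 * Real.cos θ * s (i + 1) := by
    intro i
    simp only [hs]
    push_cast
    have e1 : θ * (i : ℝ) = θ * (i + 1) - θ := by ring
    have e2 : θ * ((i : ℝ) + 2) = θ * (i + 1) + θ := by ring
    rw [e1, e2, Real.sin_sub, Real.sin_add]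
    ring
  set f : N → ℝ := fun x => ∑ i ∈ Finset.range l, if x = p i then s (i + 1) else 0 with hf
  have hfp : ∀ i, i < l → f (p i) = s (i + 1) := by
    intro i hi
    simp only [hf]
    rw [Finset.sum_eq_single i]
    · simp
    · intro j hj hji
      rw [if_neg]
      intro h
      exact hji (hp.1 i j hi (Finset.mem_range.1 hj) h).symm
    · intro h
      exact absurd (Finset.mem_range.2 hi) h
  have hf0 : ∀ x, (∀ i, i < l → x ≠ p i) → f x = 0 := by
    intro x hx
    simp only [hf]
    apply Finset.sum_eq_zero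
    intro i hi
    rw [if_neg (hx i (Finset.mem_range.1 hi))]
  have hpair : ∀ g : N → ℝ, ∑ x, f x * g x = ∑ i ∈ Finset.range l, s (i + 1) * g (p i) := by
    intro g
    simp only [hf, Finset.sum_mul]
    rw [Finset.sum_comm]
    refine Finset.sum_congr rfl fun i _ => ?_
    simp only [ite_mul, zero_mul, Finset.sum_ite_eq', Finset.mem_univ, if_true]
  have hsum : ∑ x, f x = 0 := by
    have h1 := hpair (fun _ => 1)
    simp only [mul_one] at h1
    rw [h1, ← sin_sum l (by omega)]
    refine Finset.sum_congr rfl fun i _ => ?_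
    simp only [hs, hθ]
    congr 1
    push_cast
    ring
  have hnorm : f ⬝ᵥ f = ∑ i ∈ Finset.range l, s (i + 1) ^ 2 := by
    have h1 := hpair f
    simp only [dotProduct]
    rw [h1]
    refine Finset.sum_congr rfl fun i hi => ?_
    rw [hfp i (Finset.mem_range.1 hi)]
    ring
  -- neighbours along the path
  have hnb : ∀ i, i + 1 < l → ∑ u ∈ G.neighborFinset (p i), f u = s i + s (i + 2) := by
    intro i hi
    have hdeg : (G.neighborFinset (p i)).card = 2 := by
      rw [SimpleGraph.card_neighborFinset_eq_degree]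
      exact (hp.2.2.1 i (by omega)).1
    have hnext : p (i + 1) ∈ G.neighborFinset (p i) :=
      (SimpleGraph.mem_neighborFinset _ _ _).2 (hp.2.1 i hi)
    rcases i with _ | i
    · -- the first vertex
      obtain ⟨y, hy, hyne⟩ : ∃ y ∈ G.neighborFinset (p 0), y ≠ p (0 + 1) := by
        by_contra hcon
        push Not at hcon
        have : G.neighborFinset (p 0) ⊆ {p (0 + 1)} := fun y hy =>
          Finset.mem_singleton.2 (hcon y hy)
        have := Finset.card_le_card this
        rw [hdeg, Finset.card_singleton] at this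
        omega
      have hset : G.neighborFinset (p 0) = {p (0 + 1), y} := by
        symm
        apply Finset.eq_of_subset_of_card_le
        · intro z hz
          rw [Finset.mem_insert, Finset.mem_singleton] at hz
          rcases hz with rfl | rfl
          · exact hnext
          · exact hy
        · rw [hdeg, Finset.card_insert_of_notMem (by simpa using hyne.symm),
            Finset.card_singleton]
      have hyadj : G.Adj (p 0) y := (SimpleGraph.mem_neighborFinset _ _ _).1 hy
      have hfy : f y = 0 := by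
        by_cases hex : ∃ j, j < l ∧ y = p j
        · obtain ⟨j, hj, rfl⟩ := hex
          have hj0 : j ≠ 0 := by
            rintro rfl
            exact G.irrefl hyadj
          have hj1 : j ≠ 1 := by
            rintro rfl
            exact hyne rfl
          by_cases hjl : j + 1 = l
          · rw [hfp j hj, hjl, hsl]
          · exfalso
            -- `p j` has neighbours `p (j-1)`, `p (j+1)` and `p 0`
            have hd2 := (hp.2.2.1 j hj).1
            have a1 : G.Adj (p j) (p (j + 1)) := hp.2.1 j (by omega)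
            have a2 : G.Adj (p j) (p (j - 1)) := by
              have := hp.2.1 (j - 1) (by omega)
              rw [show j - 1 + 1 = j by omega] at this
              exact this.symm
            have hsub : ({p (j + 1), p (j - 1), p 0} : Finset N) ⊆ G.neighborFinset (p j) := by
              intro z hz
              simp only [Finset.mem_insert, Finset.mem_singleton] at hz
              rw [SimpleGraph.mem_neighborFinset]
              rcases hz with rfl | rfl | rfl
              · exact a1
              · exact a2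
              · exact hyadj.symm
            have hc := Finset.card_le_card hsub
            rw [SimpleGraph.card_neighborFinset_eq_degree, hd2] at hc
            have n1 : p (j + 1) ≠ p (j - 1) := fun h => by
              have := hp.1 _ _ (by omega) (by omega) h
              omega
            have n2 : p (j + 1) ≠ p 0 := fun h => by
              have := hp.1 _ _ (by omega) (by omega) h
              omega
            have n3 : p (j - 1) ≠ p 0 := fun h => by
              have := hp.1 _ _ (by omega) (by omega) h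
              omega
            rw [Finset.card_insert_of_notMem (by simp [n1, n2]),
              Finset.card_insert_of_notMem (by simp [n3]), Finset.card_singleton] at hc
            omega
        · apply hf0
          intro j hj h
          exact hex ⟨j, hj, h⟩
      rw [hset, Finset.sum_insert (by simpa using hyne.symm), Finset.sum_singleton, hfy,
        hfp (0 + 1) (by omega), hs0]
      ring
    · -- inner vertices
      have hprev : p i ∈ G.neighborFinset (p (i + 1)) :=
        (SimpleGraph.mem_neighborFinset _ _ _).2 (hp.2.1 i (by omega)).symm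
      have hne : p i ≠ p (i + 1 + 1) := fun h => by
        have := hp.1 _ _ (by omega) (by omega) h
        omega
      have hset : G.neighborFinset (p (i + 1)) = {p i, p (i + 1 + 1)} := by
        symm
        apply Finset.eq_of_subset_of_card_le
        · intro z hz
          rw [Finset.mem_insert, Finset.mem_singleton] at hz
          rcases hz with rfl | rfl
          · exact hprev
          · exact hnext
        · rw [hdeg, Finset.card_insert_of_notMem (by simpa using hne),
            Finset.card_singleton]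
      rw [hset, Finset.sum_insert (by simpa using hne), Finset.sum_singleton,
        hfp i (by omega), hfp (i + 1 + 1) (by omega)]
  have hQ : f ⬝ᵥ (G.lapMatrix ℝ *ᵥ f) = (2 - 2 * Real.cos θ) * (f ⬝ᵥ f) := by
    rw [hnorm, Finset.mul_sum]
    have h1 := hpair (G.lapMatrix ℝ *ᵥ f)
    change ∑ x, f x * (G.lapMatrix ℝ *ᵥ f) x = _
    rw [h1]
    refine Finset.sum_congr rfl fun i hi => ?_
    have hi' := Finset.mem_range.1 hi
    by_cases hil : i + 1 = l
    · rw [hil, hsl]; ring
    · rw [SimpleGraph.lapMatrix_mulVec_apply, hnb i (by omega), hfp i hi', hrec i,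
        (hp.2.2.1 i hi').1]
      push_cast
      ring
  have hpos : 0 < f ⬝ᵥ f := by
    rw [hnorm]
    apply Finset.sum_pos'
    · intro i _; positivity
    · refine ⟨0, Finset.mem_range.2 (by omega), ?_⟩
      have : 0 < s (0 + 1) := by
        simp only [hs]
        apply Real.sin_pos_of_pos_of_lt_pi
        · have := Real.pi_pos
          simp only [hθ]
          positivity
        · simp only [hθ]
          push_cast
          rw [mul_one, div_lt_iff₀ hl0]
          have h3 : (3 : ℝ) ≤ l := by exact_mod_cast hl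
          have := Real.pi_pos
          nlinarith
      positivity
  have h := lam2_mul_le G hsum
  rw [hQ] at h
  have h2 := le_of_mul_le_mul_right h hpos
  have h3 := Real.one_sub_sq_div_two_le_cos (x := θ)
  linarith

/-- `λ₂(G) ≤ 2560 ν(G)` for all finite graphs of minimum degree at least two. -/
theorem lam2_le_nu [Nonempty N] (hG : ∀ v, 2 ≤ G.degree v) : lam2 G ≤ 2560 * nu G := by
  classical
  by_cases h3 : ∀ v, 3 ≤ G.degree v
  · obtain ⟨v, hv⟩ := G.exists_minimal_degree_vertex
    set d := G.minDegree with hd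
    have hd3 : 3 ≤ d := by
      rw [hv]; exact h3 v
    have hd3' : (3 : ℝ) ≤ d := by exact_mod_cast hd3
    have h1 := degree_bound G d (by omega) (fun v => G.minDegree_le_degree v)
    have h2 := lam2_le_degree G v
    rw [← hv] at h2
    have h4 : Real.sqrt (d - 1) ≤ 0.475 * d := by
      rw [Real.sqrt_le_left (by positivity)]
      nlinarith
    linarith
  · push Not at h3
    obtain ⟨v, hv⟩ := h3
    have hdv : G.degree v = 2 := by
      have := hG v
      omega
    have h1 := run_bound G hG
    have h2 := lam2_le_degree G v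
    rw [hdv] at h2
    push_cast at h2
    set l := maxRun G with hl
    by_cases hl3 : 3 ≤ l
    · obtain ⟨w, p, hp⟩ := exists_maxRun (G := G)
      rw [← hl] at hp
      have h5 := lam2_le_run G hl3 hp
      have hl3' : (3 : ℝ) ≤ l := by exact_mod_cast hl3
      have h6 : (2 * Real.pi / l) ^ 2 ≤ 2560 * cc l := by
        unfold cc
        rw [div_pow, mul_one_div, div_le_div_iff₀ (by positivity) (by positivity)]
        have hpi : Real.pi ^ 2 ≤ 10 := by
          have := Real.pi_lt_d2
          have := Real.pi_pos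
          nlinarith
        have h7 : (2 * Real.pi) ^ 2 ≤ 40 := by nlinarith
        have h8 : (6 * (l : ℝ) + 4) ^ 2 ≤ 64 * (l : ℝ) ^ 2 := by nlinarith
        calc (2 * Real.pi) ^ 2 * (6 * (l : ℝ) + 4) ^ 2 ≤ 40 * (64 * (l : ℝ) ^ 2) :=
              mul_le_mul h7 h8 (by positivity) (by norm_num)
          _ = 2560 * (l : ℝ) ^ 2 := by ring
      linarith
    · have hl2 : (l : ℝ) ≤ 2 := by
        have : l ≤ 2 := by omega
        exact_mod_cast this
      have hl0 : (0 : ℝ) ≤ l := Nat.cast_nonneg l
      have h6 : (1 : ℝ) / 256 ≤ cc l := by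
        unfold cc
        apply one_div_le_one_div_of_le (by positivity)
        nlinarith
      linarith

end Pool.Agent.Q260.MG
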