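import Pool.Agent.Q260.MG.Sign

/-! Lower bounds for the magneto-spectral height from positivity of the matching expansion. -/

set_option autoImplicit false

open Matrix Pool.Agent.W130.RC

namespace Pool.Agent.Q260.MG

variable {N : Type*} [Fintype N] [DecidableEq N]

/-- symmetric extension of the signs of the listed edges -/
def tau (L : List (N × N)) (s : N × N → ℝ) (x y : N) : ℝ := if (x, y) ∈ L then s (x, y) else s (y, x)

lemma tau_symm {G : SimpleGraph N} {L : List (N × N)} (hL : EdgeList G L) (s : N × N → ℝ)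
    {x y : N} (h : G.Adj x y) : tau L s x y = tau L s y x := by
  unfold tau
  rcases hL.cover x y h with h1 | h1
  · have := hL.once x y h1
    rw [if_pos h1, if_neg this]
  · have := hL.once y x h1
    rw [if_neg this, if_pos h1]

lemma tau_one {L : List (N × N)} {s : N × N → ℝ} (hs : ∀ e, s e = 1 ∨ s e = -1) (x y : N) :
    tau L s x y = 1 ∨ tau L s x y = -1 := by
  unfold tau
  split_ifs
  · exact hs _
  · exact hs _

lemma sum_tau {G : SimpleGraph N} [DecidableRel G.Adj] {L : List (N × N)} (hL : EdgeList G L)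
    (s : N × N → ℝ) (F : N → N → ℝ) (hF : ∀ x y, F x y = F y x) :
    ∑ x, ∑ y, (if G.Adj x y then tau L s x y * F x y else 0) =
      ∑ e ∈ L.toFinset, s e * (2 * F e.1 e.2) := by
  have h1 : ∀ x y, (if G.Adj x y then tau L s x y * F x y else 0) =
      (if (x, y) ∈ L then s (x, y) * F x y else 0) +
      (if (y, x) ∈ L then s (y, x) * F y x else 0) := by
    intro x y
    by_cases h : G.Adj x y
    · rcases hL.cover x y h with h2 | h2
      · have := hL.once x y h2
        simp [h, tau, h2, this]
      · have := hL.once y x h2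
        simp [h, tau, h2, this, hF x y]
    · have h2 : (x, y) ∉ L := fun h' => h (hL.adj _ h')
      have h3 : (y, x) ∉ L := fun h' => h (hL.adj _ h').symm
      simp [h, h2, h3]
  simp only [h1, Finset.sum_add_distrib]
  rw [Finset.sum_comm (f := fun x y => if (y, x) ∈ L then s (y, x) * F y x else 0)]
  have h2 : ∑ x, ∑ y, (if (x, y) ∈ L then s (x, y) * F x y else 0) =
      ∑ e ∈ L.toFinset, s e * F e.1 e.2 := by
    rw [← Fintype.sum_prod_type' (f := fun x y => if (x, y) ∈ L then s (x, y) * F x y else 0)]
    rw [← Finset.sum_filter]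
    apply Finset.sum_congr
    · ext e; simp
    · intro e _; rfl
  rw [h2, ← Finset.sum_add_distrib]
  refine Finset.sum_congr rfl fun e _ => ?_
  ring

lemma real_form {G : SimpleGraph N} [DecidableRel G.Adj] {L : List (N × N)} (hL : EdgeList G L)
    {s : N × N → ℝ} (hs : ∀ e, s e = 1 ∨ s e = -1) (y : N → ℝ) :
    (1 / 2) * ∑ x, ∑ z, (if G.Adj x z then (y x - tau L s x z * y z) ^ 2 else 0) =
      ∑ v, (G.degree v : ℝ) * y v ^ 2 - ∑ e ∈ L.toFinset, s e * (2 * (y e.1 * y e.2)) := by
  have h1 : ∀ x z, (if G.Adj x z then (y x - tau L s x z * y z) ^ 2 else 0) =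
      (if G.Adj x z then y x ^ 2 else 0) + (if G.Adj z x then y z ^ 2 else 0) -
        2 * (if G.Adj x z then tau L s x z * (y x * y z) else 0) := by
    intro x z
    by_cases h : G.Adj x z
    · rw [if_pos h, if_pos h, if_pos h.symm, if_pos h]
      rcases tau_one (L := L) hs x z with h2 | h2 <;> rw [h2] <;> ring
    · have h' : ¬ G.Adj z x := fun h0 => h h0.symm
      rw [if_neg h, if_neg h, if_neg h', if_neg h]; ring
  have h2 : ∀ x, ∑ z, (if G.Adj x z then y x ^ 2 else 0) = (G.degree x : ℝ) * y x ^ 2 := by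
    intro x
    rw [← Finset.sum_filter, ← SimpleGraph.neighborFinset_eq_filter, Finset.sum_const,
      SimpleGraph.card_neighborFinset_eq_degree, nsmul_eq_mul]
  simp only [h1, Finset.sum_sub_distrib, Finset.sum_add_distrib, ← Finset.mul_sum]
  rw [Finset.sum_comm (f := fun x z => if G.Adj z x then y z ^ 2 else 0)]
  simp only [h2]
  rw [sum_tau hL s (fun x z => y x * y z) (fun x z => mul_comm _ _)]
  ring

/-- Positivity of the matching expansion above `-c` gives `ν(G) ≥ c`. -/
theorem le_nu_of_mu_pos [Nonempty N] {G : SimpleGraph N} [DecidableRel G.Adj] {L : List (N × N)}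
    (hL : EdgeList G L) (c : ℝ)
    (hpos : ∀ x, -c < x → 0 < mu (Matrix.diagonal fun v => x + (G.degree v : ℝ)) L ∅) :
    c ≤ nu G := by
  classical
  obtain ⟨s, hs, hq⟩ := exists_signing hL c hpos
  set σ : N → N → ℂ := fun x y => (tau L s x y : ℂ) with hσdef
  have hσ : IsPotential G σ := by
    intro x y h
    have h1 := tau_symm hL s h
    simp only [hσdef, ← h1]
    rcases tau_one (L := L) hs x y with h2 | h2 <;> rw [h2] <;> simp
  refine le_trans (le_lam1 hσ ?_) (lam1_le_nu hσ)
  intro f
  have h1 : energy G σ f =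
      (1 / 2) * ∑ x, ∑ z, (if G.Adj x z then ((f x).re - tau L s x z * (f z).re) ^ 2 else 0) +
      (1 / 2) * ∑ x, ∑ z, (if G.Adj x z then ((f x).im - tau L s x z * (f z).im) ^ 2 else 0) := by
    unfold energy
    rw [← mul_add, ← Finset.sum_add_distrib]
    congr 1
    refine Finset.sum_congr rfl fun x _ => ?_
    rw [← Finset.sum_add_distrib]
    refine Finset.sum_congr rfl fun z _ => ?_
    by_cases h : G.Adj x z
    · rw [if_pos h, if_pos h, if_pos h, ← Complex.normSq_eq_norm_sq, Complex.normSq_apply]
      simp only [hσdef, Complex.sub_re, Complex.sub_im, Complex.re_ofReal_mul,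
        Complex.im_ofReal_mul]
      ring
    · rw [if_neg h, if_neg h, if_neg h]; ring
  rw [h1, real_form hL hs (fun x => (f x).re), real_form hL hs (fun x => (f x).im)]
  have h2 := hq (fun x => (f x).re)
  have h3 := hq (fun x => (f x).im)
  have h4 : ∑ x, ‖f x‖ ^ 2 = (fun x => (f x).re) ⬝ᵥ (fun x => (f x).re) +
      (fun x => (f x).im) ⬝ᵥ (fun x => (f x).im) := by
    simp only [dotProduct]
    rw [← Finset.sum_add_distrib]
    refine Finset.sum_congr rfl fun x _ => ?_
    rw [← Complex.normSq_eq_norm_sq, Complex.normSq_apply]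
  rw [h4]
  linarith

/-- The Ramanujan type bound for arbitrary graphs of minimum degree at least `d`. -/
theorem degree_bound [Nonempty N] (G : SimpleGraph N) [DecidableRel G.Adj] (d : ℕ) (hd : 2 ≤ d)
    (hG : ∀ v, d ≤ G.degree v) : (d : ℝ) - 2 * Real.sqrt (d - 1) ≤ nu G := by
  classical
  obtain ⟨L, hL⟩ := exists_edgeList G
  apply le_nu_of_mu_pos hL
  intro x hx
  set t := Real.sqrt (d - 1) with ht
  have hd' : (2 : ℝ) ≤ d := by exact_mod_cast hd
  have ht2 : t ^ 2 = d - 1 := Real.sq_sqrt (by linarith)
  have ht1 : 1 ≤ t := by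
    rw [ht]
    exact Real.one_le_sqrt.2 (by linarith)
  set η := x + ((d : ℝ) - 2 * t) with hη
  have hη0 : 0 < η := by linarith
  set ρ : Finset N → N → ℝ := fun S v => if ∃ u ∈ S, G.Adj v u then t else η with hρ
  refine (mu_pos_of_bounds hL _ ρ ?_ ?_ _ ∅ rfl).1
  · intro S v _
    simp only [hρ]
    split_ifs
    · linarith
    · exact hη0
  · intro S v hv
    have h1 : ∀ w ∈ (G.neighborFinset v).filter (fun w => w ∉ insert v S),
        (ρ (insert v S) w)⁻¹ = t⁻¹ := by
      intro w hw
      rw [Finset.mem_filter, SimpleGraph.mem_neighborFinset] at hw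
      simp only [hρ]
      rw [if_pos ⟨v, Finset.mem_insert_self _ _, hw.1.symm⟩]
    rw [Finset.sum_congr rfl h1, Finset.sum_const, nsmul_eq_mul]
    have hdv : (d : ℝ) ≤ G.degree v := by exact_mod_cast hG v
    have ht0 : 0 < t := by linarith
    by_cases hb : ∃ u ∈ S, G.Adj v u
    · simp only [hρ]
      rw [if_pos hb]
      obtain ⟨u, hu, huv⟩ := hb
      have hcard : ((G.neighborFinset v).filter (fun w => w ∉ insert v S)).card + 1 ≤
          G.degree v := by
        rw [← SimpleGraph.card_neighborFinset_eq_degree]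
        have : (G.neighborFinset v).filter (fun w => w ∉ insert v S) ⊂ G.neighborFinset v := by
          refine Finset.ssubset_iff_subset_ne.2 ⟨Finset.filter_subset _ _, fun h => ?_⟩
          have h2 : u ∈ G.neighborFinset v := (SimpleGraph.mem_neighborFinset _ _ _).2 huv
          rw [← h] at h2
          exact (Finset.mem_filter.1 h2).2 (Finset.mem_insert_of_mem hu)
        exact Finset.card_lt_card this
      have hcard' : ((((G.neighborFinset v).filter (fun w => w ∉ insert v S)).card : ℕ) : ℝ) + 1 ≤
          G.degree v := by exact_mod_cast hcard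
      have h3 : ((((G.neighborFinset v).filter (fun w => w ∉ insert v S)).card : ℕ) : ℝ) * t⁻¹ ≤
          ((G.degree v : ℝ) - 1) * t⁻¹ :=
        mul_le_mul_of_nonneg_right (by linarith) (by positivity)
      have h4 : ((G.degree v : ℝ) - 1) * t⁻¹ = t + ((G.degree v : ℝ) - d) * t⁻¹ := by
        have : (G.degree v : ℝ) - 1 = t ^ 2 + ((G.degree v : ℝ) - d) := by rw [ht2]; ring
        rw [this, add_mul]
        congr 1
        field_simp
      have h5 : ((G.degree v : ℝ) - d) * t⁻¹ ≤ (G.degree v : ℝ) - d := by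
        have : t⁻¹ ≤ 1 := inv_le_one_of_one_le₀ ht1
        nlinarith
      linarith
    · simp only [hρ]
      rw [if_neg hb]
      have hcard : ((G.neighborFinset v).filter (fun w => w ∉ insert v S)).card ≤
          G.degree v := by
        rw [← SimpleGraph.card_neighborFinset_eq_degree]
        exact Finset.card_le_card (Finset.filter_subset _ _)
      have hcard' : ((((G.neighborFinset v).filter (fun w => w ∉ insert v S)).card : ℕ) : ℝ) ≤
          G.degree v := by exact_mod_cast hcard
      have h3 : ((((G.neighborFinset v).filter (fun w => w ∉ insert v S)).card : ℕ) : ℝ) * t⁻¹ ≤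
          (G.degree v : ℝ) * t⁻¹ :=
        mul_le_mul_of_nonneg_right hcard' (by positivity)
      have h4 : (G.degree v : ℝ) * t⁻¹ = t + t⁻¹ + ((G.degree v : ℝ) - d) * t⁻¹ := by
        have : (G.degree v : ℝ) = t ^ 2 + 1 + ((G.degree v : ℝ) - d) := by rw [ht2]; ring
        conv_lhs => rw [this]
        rw [add_mul, add_mul]
        congr 2
        · field_simp
        · ring
      have h5 : ((G.degree v : ℝ) - d) * t⁻¹ ≤ (G.degree v : ℝ) - d := by
        have : t⁻¹ ≤ 1 := inv_le_one_of_one_le₀ ht1
        nlinarith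
      have h6 : t⁻¹ ≤ t := (inv_le_one_of_one_le₀ ht1).trans ht1
      linarith

end Pool.Agent.Q260.MG
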