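import Pool.Agent.Q260.MG.Nu

/-! Lower bound for the magneto-spectral height of graphs with minimum degree two in terms of the
longest path of vertices of degree two. -/

set_option autoImplicit false

open Matrix Pool.Agent.W130.RC

namespace Pool.Agent.Q260.MG

variable {N : Type*} [Fintype N] [DecidableEq N]

/-- `p 0, …, p (k-1)` is a path of distinct vertices of degree two outside `S` starting at `v` -/
def Run (G : SimpleGraph N) [DecidableRel G.Adj] (S : Finset N) (v : N) (k : ℕ) (p : ℕ → N) :
    Prop :=
  (∀ i j, i < k → j < k → p i = p j → i = j) ∧ (∀ i, i + 1 < k → G.Adj (p i) (p (i + 1))) ∧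
    (∀ i, i < k → G.degree (p i) = 2 ∧ p i ∉ S) ∧ (0 < k → p 0 = v)

/-- the maximal length of such a path -/
noncomputable def rlen (G : SimpleGraph N) [DecidableRel G.Adj] (S : Finset N) (v : N) : ℕ :=
  sSup {k | ∃ p, Run G S v k p}

variable {G : SimpleGraph N} [DecidableRel G.Adj]

lemma Run.le_card {S : Finset N} {v : N} {k : ℕ} {p : ℕ → N} (h : Run G S v k p) :
    k ≤ Fintype.card N := by
  have h1 : Function.Injective (fun i : Fin k => p i) := by
    intro i j hij
    exact Fin.ext (h.1 i j i.2 j.2 hij)
  simpa using Fintype.card_le_of_injective _ h1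

lemma run_zero (S : Finset N) (v : N) : Run G S v 0 (fun _ => v) :=
  ⟨fun i _ h => absurd h (by omega), fun i h => absurd h (by omega),
    fun i h => absurd h (by omega), fun _ => rfl⟩

lemma rlen_bdd (S : Finset N) (v : N) : BddAbove {k | ∃ p, Run G S v k p} :=
  ⟨Fintype.card N, fun _ ⟨_, hp⟩ => hp.le_card⟩

lemma exists_rlen (S : Finset N) (v : N) : ∃ p, Run G S v (rlen G S v) p := by
  have hne : {k | ∃ p, Run G S v k p}.Nonempty := ⟨0, _, run_zero S v⟩
  exact Nat.sSup_mem hne (rlen_bdd S v)

lemma Run.le_rlen {S : Finset N} {v : N} {k : ℕ} {p : ℕ → N} (h : Run G S v k p) :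
    k ≤ rlen G S v := le_csSup (rlen_bdd S v) ⟨p, h⟩

lemma rlen_step {S : Finset N} {v w : N} (hv : v ∉ S) (hd : G.degree v = 2) (hvw : G.Adj v w) :
    rlen G (insert v S) w + 1 ≤ rlen G S v := by
  obtain ⟨p, hp⟩ := exists_rlen (G := G) (insert v S) w
  set k := rlen G (insert v S) w with hk
  have hrun : Run G S v (k + 1) (fun i => Nat.casesOn i v p) := by
    refine ⟨?_, ?_, ?_, ?_⟩
    · intro i j hi hj hij
      rcases i with _ | i <;> rcases j with _ | j
      · rfl
      · exfalso
        have hij' : v = p j := hij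
        have := (hp.2.2.1 j (by omega)).2
        rw [← hij'] at this
        exact this (Finset.mem_insert_self _ _)
      · exfalso
        have hij' : p i = v := hij
        have := (hp.2.2.1 i (by omega)).2
        rw [hij'] at this
        exact this (Finset.mem_insert_self _ _)
      · have hij' : p i = p j := hij
        have := hp.1 i j (by omega) (by omega) hij'
        omega
    · intro i hi
      rcases i with _ | i
      · change G.Adj v (p 0)
        have : p 0 = w := hp.2.2.2 (by omega)
        rw [this]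
        exact hvw
      · change G.Adj (p i) (p (i + 1))
        exact hp.2.1 i (by omega)
    · intro i hi
      rcases i with _ | i
      · exact ⟨hd, hv⟩
      · have := hp.2.2.1 i (by omega)
        exact ⟨this.1, fun h => this.2 (Finset.mem_insert_of_mem h)⟩
    · intro _; rfl
  exact hrun.le_rlen

/-- the length of the longest path of degree-two vertices -/
noncomputable def maxRun (G : SimpleGraph N) [DecidableRel G.Adj] : ℕ :=
  Finset.univ.sup fun v => rlen G ∅ v

lemma rlen_le_max (S : Finset N) (v : N) : rlen G S v ≤ maxRun G := by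
  obtain ⟨p, hp⟩ := exists_rlen (G := G) S v
  have h1 : Run G ∅ v (rlen G S v) p :=
    ⟨hp.1, hp.2.1, fun i hi => ⟨(hp.2.2.1 i hi).1, Finset.notMem_empty _⟩, hp.2.2.2⟩
  exact h1.le_rlen.trans (Finset.le_sup (f := fun v => rlen G ∅ v) (Finset.mem_univ v))

lemma exists_maxRun [Nonempty N] : ∃ v p, Run G ∅ v (maxRun G) p := by
  obtain ⟨v, _, hv⟩ := Finset.exists_mem_eq_sup (Finset.univ : Finset N)
    Finset.univ_nonempty (fun v => rlen G ∅ v)
  obtain ⟨p, hp⟩ := exists_rlen (G := G) ∅ v
  refine ⟨v, p, ?_⟩
  unfold maxRun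
  rw [hv]
  exact hp

/-- the target values -/
noncomputable def eps (l j : ℕ) : ℝ := 1 / (4 * l + 4 + 2 * j)

lemma eps_pos (l j : ℕ) : 0 < eps l j := by unfold eps; positivity

lemma eps_anti {l i j : ℕ} (h : i ≤ j) : eps l j ≤ eps l i := by
  unfold eps
  apply one_div_le_one_div_of_le (by positivity)
  have : (i : ℝ) ≤ j := by exact_mod_cast h
  linarith

lemma eps_le (l j : ℕ) : eps l j ≤ 1 / 4 := by
  unfold eps
  apply one_div_le_one_div_of_le (by norm_num)
  have h1 : (0 : ℝ) ≤ l := Nat.cast_nonneg l
  have h2 : (0 : ℝ) ≤ j := Nat.cast_nonneg j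
  linarith

/-- the bound -/
noncomputable def cc (l : ℕ) : ℝ := 1 / (6 * l + 4) ^ 2

lemma cc_pos (l : ℕ) : 0 < cc l := by unfold cc; positivity

lemma cc_le (l : ℕ) : cc l ≤ 1 / 16 := by
  unfold cc
  apply one_div_le_one_div_of_le (by norm_num)
  have h1 : (0 : ℝ) ≤ l := Nat.cast_nonneg l
  nlinarith

lemma eps_step {l j' : ℕ} (h : j' + 1 ≤ l) :
    eps l (j' + 1) + cc l ≤ 1 - (1 + eps l j')⁻¹ := by
  have hl : (0 : ℝ) ≤ l := Nat.cast_nonneg l
  have hj : (0 : ℝ) ≤ j' := Nat.cast_nonneg j'
  have hjl : (j' : ℝ) + 1 ≤ l := by exact_mod_cast h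
  have h1 : 1 - (1 + eps l j')⁻¹ = 1 / (4 * l + 4 + 2 * j' + 1) := by
    unfold eps
    field_simp
    ring
  rw [h1]
  unfold eps cc
  push_cast
  set A : ℝ := 4 * l + 4 + 2 * j' with hA
  have hA0 : 0 < A := by positivity
  have e : (4 * (l : ℝ) + 4 + 2 * ((j' : ℝ) + 1)) = A + 2 := by rw [hA]; ring
  rw [e]
  have h2 : 1 / (A + 2) + 1 / ((A + 1) * (A + 2)) = 1 / (A + 1) := by
    field_simp
    ring
  have h3 : 1 / (6 * (l : ℝ) + 4) ^ 2 ≤ 1 / ((A + 1) * (A + 2)) := by
    apply one_div_le_one_div_of_le (by positivity)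
    have : A + 2 ≤ 6 * l + 4 := by rw [hA]; linarith
    nlinarith
  linarith

lemma branch_step (l : ℕ) {d : ℝ} (hd : 3 ≤ d) :
    eps l 0 + cc l ≤ (d - 1) * (1 - (1 + eps l l)⁻¹) := by
  have hl : (0 : ℝ) ≤ l := Nat.cast_nonneg l
  have h1 : 1 - (1 + eps l l)⁻¹ = 1 / (6 * l + 5) := by
    unfold eps
    field_simp
    ring
  rw [h1]
  have h2 : 2 * (1 / (6 * (l : ℝ) + 5)) ≤ (d - 1) * (1 / (6 * l + 5)) := by
    apply mul_le_mul_of_nonneg_right (by linarith) (by positivity)
  refine le_trans ?_ h2
  unfold eps cc
  have h3 : (1 : ℝ) / (4 * l + 4 + 2 * ((0 : ℕ) : ℝ)) = 1 / (4 * l + 4) := by norm_num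
  rw [h3]
  have h4 : 1 / (6 * (l : ℝ) + 4) ^ 2 ≤ (2 * l + 3) / ((6 * l + 5) * (4 * l + 4)) := by
    rw [div_le_div_iff₀ (by positivity) (by positivity)]
    nlinarith [mul_nonneg hl hl, mul_nonneg (mul_nonneg hl hl) hl]
  have h5 : 1 / (4 * (l : ℝ) + 4) + (2 * l + 3) / ((6 * l + 5) * (4 * l + 4)) =
      2 * (1 / (6 * l + 5)) := by
    field_simp
    ring
  linarith

lemma free_step (l : ℕ) {d : ℝ} (hd : 2 ≤ d) : cc l ≤ d * (1 - (1 + eps l l)⁻¹) := by
  have hl : (0 : ℝ) ≤ l := Nat.cast_nonneg l
  have h1 : 1 - (1 + eps l l)⁻¹ = 1 / (6 * l + 5) := by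
    unfold eps
    field_simp
    ring
  rw [h1]
  have h2 : 2 * (1 / (6 * (l : ℝ) + 5)) ≤ d * (1 / (6 * l + 5)) := by
    apply mul_le_mul_of_nonneg_right (by linarith) (by positivity)
  refine le_trans ?_ h2
  unfold cc
  rw [mul_one_div, div_le_div_iff₀ (by positivity) (by positivity)]
  nlinarith [mul_nonneg hl hl]

/-- The height of a graph of minimum degree two is bounded below in terms of the longest path of
vertices of degree two. -/
theorem run_bound [Nonempty N] (G : SimpleGraph N) [DecidableRel G.Adj]
    (hG : ∀ v, 2 ≤ G.degree v) : cc (maxRun G) ≤ nu G := by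
  classical
  obtain ⟨L, hL⟩ := exists_edgeList G
  apply le_nu_of_mu_pos hL
  intro x hx
  set l := maxRun G with hl
  set η := x + cc l with hη
  have hη0 : 0 < η := by linarith
  set ρ : Finset N → N → ℝ := fun S v =>
    if ∃ u ∈ S, G.Adj v u then 1 + eps l (rlen G S v) else η with hρ
  refine (mu_pos_of_bounds hL _ ρ ?_ ?_ _ ∅ rfl).1
  · intro S v _
    simp only [hρ]
    split_ifs
    · have := eps_pos l (rlen G S v); linarith
    · exact hη0
  · intro S v hv
    have h1 : ∀ w ∈ (G.neighborFinset v).filter (fun w => w ∉ insert v S),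
        (ρ (insert v S) w)⁻¹ = (1 + eps l (rlen G (insert v S) w))⁻¹ := by
      intro w hw
      rw [Finset.mem_filter, SimpleGraph.mem_neighborFinset] at hw
      simp only [hρ]
      rw [if_pos ⟨v, Finset.mem_insert_self _ _, hw.1.symm⟩]
    have h2 : ∀ w ∈ (G.neighborFinset v).filter (fun w => w ∉ insert v S),
        (ρ (insert v S) w)⁻¹ ≤ (1 + eps l l)⁻¹ := by
      intro w hw
      rw [h1 w hw]
      apply inv_anti₀
      · have := eps_pos l l; linarith
      · have := eps_anti (l := l) (rlen_le_max (G := G) (insert v S) w)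
        rw [← hl] at this
        linarith
    have hdv : (2 : ℝ) ≤ G.degree v := by exact_mod_cast hG v
    have hinv : 0 ≤ (1 + eps l l)⁻¹ := by
      have := eps_pos l l
      positivity
    by_cases hb : ∃ u ∈ S, G.Adj v u
    · simp only [hρ]
      rw [if_pos hb]
      obtain ⟨u, hu, huv⟩ := hb
      have hcard : ((G.neighborFinset v).filter (fun w => w ∉ insert v S)).card + 1 ≤
          G.degree v := by
        rw [← SimpleGraph.card_neighborFinset_eq_degree]
        have : (G.neighborFinset v).filter (fun w => w ∉ insert v S) ⊂ G.neighborFinset v := by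
          refine Finset.ssubset_iff_subset_ne.2 ⟨Finset.filter_subset _ _, fun h => ?_⟩
          have h2 : u ∈ G.neighborFinset v := (SimpleGraph.mem_neighborFinset _ _ _).2 huv
          rw [← h] at h2
          exact (Finset.mem_filter.1 h2).2 (Finset.mem_insert_of_mem hu)
        exact Finset.card_lt_card this
      by_cases hd2 : G.degree v = 2
      · rw [hd2] at hcard
        have hdeg : (G.degree v : ℝ) = 2 := by exact_mod_cast hd2
        rw [hdeg]
        rcases Nat.eq_zero_or_pos
          ((G.neighborFinset v).filter (fun w => w ∉ insert v S)).card with h0 | h0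
        · rw [Finset.card_eq_zero] at h0
          rw [h0, Finset.sum_empty]
          have := eps_le l (rlen G S v)
          have := cc_le l
          linarith
        · have h1c : ((G.neighborFinset v).filter (fun w => w ∉ insert v S)).card = 1 := by omega
          obtain ⟨w, hw⟩ := Finset.card_eq_one.1 h1c
          have hwm : w ∈ (G.neighborFinset v).filter (fun w => w ∉ insert v S) := by
            rw [hw]; exact Finset.mem_singleton_self w
          have hrw := h1 w hwm
          rw [hw, Finset.sum_singleton]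
          simp only [hρ] at hrw
          rw [hrw]
          have hadj : G.Adj v w :=
            (SimpleGraph.mem_neighborFinset _ _ _).1 (Finset.mem_filter.1 hwm).1
          have hst := rlen_step hv hd2 hadj
          have hle := rlen_le_max (G := G) S v
          rw [← hl] at hle
          have e1 := eps_step (l := l) (j' := rlen G (insert v S) w) (hst.trans hle)
          have e2 := eps_anti (l := l) hst
          linarith
      · have hd3 : (3 : ℝ) ≤ G.degree v := by
          have := hG v
          have : 3 ≤ G.degree v := by omega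
          exact_mod_cast this
        have hsum := Finset.sum_le_sum h2
        rw [Finset.sum_const, nsmul_eq_mul] at hsum
        have hcard' : ((((G.neighborFinset v).filter (fun w => w ∉ insert v S)).card : ℕ) : ℝ) ≤
            (G.degree v : ℝ) - 1 := by
          have : ((((G.neighborFinset v).filter (fun w => w ∉ insert v S)).card : ℕ) : ℝ) + 1 ≤
            (G.degree v : ℝ) := by exact_mod_cast hcard
          linarith
        have h3 := mul_le_mul_of_nonneg_right hcard' hinv
        have h4 := branch_step l hd3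
        have h5 := eps_anti (l := l) (Nat.zero_le (rlen G S v))
        simp only [hρ] at hsum
        linarith
    · simp only [hρ]
      rw [if_neg hb]
      have hcard : ((G.neighborFinset v).filter (fun w => w ∉ insert v S)).card ≤
          G.degree v := by
        rw [← SimpleGraph.card_neighborFinset_eq_degree]
        exact Finset.card_le_card (Finset.filter_subset _ _)
      have hcard' : ((((G.neighborFinset v).filter (fun w => w ∉ insert v S)).card : ℕ) : ℝ) ≤
          G.degree v := by exact_mod_cast hcard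
      have hsum := Finset.sum_le_sum h2
      rw [Finset.sum_const, nsmul_eq_mul] at hsum
      have h3 := mul_le_mul_of_nonneg_right hcard' hinv
      have h4 := free_step l hdv
      simp only [hρ] at hsum
      linarith

end Pool.Agent.Q260.MG
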