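import Pool.Agent.Q260.MG.Diag
import Pool.Agent.Q260.MG.Basic
import Pool.Agent.W130.RC.Exist

/-! Existence of a signing of the edges with large smallest eigenvalue of `D - A_s`, from
positivity of the matching expansion. -/

set_option autoImplicit false

open Matrix Polynomial Pool.Agent.W130.RC

namespace Pool.Agent.Q260.MG

variable {N : Type*} [Fintype N] [DecidableEq N]

/-- matrix of an edge of the list -/
def X0 (L0 : List (N × N)) (e : N × N) : Matrix N N ℝ := if e ∈ L0 then Xe e.1 e.2 else 0

/-- signed family -/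
def fam (B : Matrix N N ℝ) (L0 : List (N × N)) (s : N × N → ℝ) : Option (N × N) → Matrix N N ℝ
  | none => B
  | some e => s e • X0 L0 e

lemma Xe_isSymm (a b : N) : (Xe a b).IsSymm := by
  unfold Matrix.IsSymm
  ext i j
  rw [Matrix.transpose_apply, Xe_apply, Xe_apply]
  rw [add_comm]
  congr 1
  · congr 1; exact propext and_comm
  · congr 1; exact propext and_comm

lemma fam_symm {B : Matrix N N ℝ} (hB : B.IsSymm) (L0 : List (N × N)) (s : N × N → ℝ) :
    Symm (fam B L0 s) := by
  rintro (_ | e)
  · exact hB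
  · unfold fam X0
    apply Matrix.IsSymm.smul
    split_ifs
    · exact Xe_isSymm _ _
    · exact Matrix.isSymm_zero

/-- reflection vector -/
noncomputable def rv (a : N) : N → ℝ := Real.sqrt 2 • Pi.single a 1

lemma rv_norm (a : N) : rv a ⬝ᵥ rv a = 2 := by
  unfold rv
  rw [smul_dotProduct, dotProduct_smul]
  simp

lemma rv_refl (a : N) : (1 - vecMulVec (rv a) (rv a) : Matrix N N ℝ) =
    Matrix.diagonal (fun i => if i = a then -1 else 1) := by
  ext i j
  simp only [Matrix.sub_apply, Matrix.one_apply, vecMulVec_apply, rv, Pi.smul_apply,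
    Pi.single_apply, smul_eq_mul, Matrix.diagonal_apply]
  have h2 : Real.sqrt 2 * Real.sqrt 2 = 2 := Real.mul_self_sqrt (by norm_num)
  by_cases hi : i = a <;> by_cases hj : j = a
  · subst hi; subst hj; simp; linarith
  · have : i ≠ j := fun h => hj (h ▸ hi)
    simp [hj, this]
  · have : i ≠ j := fun h => hi (h ▸ hj)
    simp [hi, this]
  · simp [hi]

lemma flip_Xe {a b : N} (hab : a ≠ b) : (1 - vecMulVec (rv a) (rv a)) * Xe a b *
    (1 - vecMulVec (rv a) (rv a))ᵀ = - Xe a b := by
  rw [rv_refl, Matrix.diagonal_transpose]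
  ext i j
  rw [Matrix.mul_diagonal, Matrix.diagonal_mul, Matrix.neg_apply, Xe_apply]
  by_cases hi : i = a <;> by_cases hj : j = a
  · subst hi; subst hj
    simp [Ne.symm hab]
  · subst hi
    by_cases hj' : b = j
    · simp [hj, hj', Ne.symm hab]
    · simp [hj, hj', Ne.symm hab]
  · subst hj
    by_cases hi' : b = i
    · simp [hi, hi', Ne.symm hab]
    · simp [hi, hi', Ne.symm hab]
  · simp [Ne.symm hi, Ne.symm hj]

lemma upd_fam {B : Matrix N N ℝ} {L0 : List (N × N)} (hne : ∀ e ∈ L0, e.1 ≠ e.2)
    (s : N × N → ℝ) (e : N × N) :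
    upd (some e) (1 - vecMulVec (rv e.1) (rv e.1)) (fam B L0 s) =
      fam B L0 (Function.update s e (-s e)) := by
  funext i
  rcases i with _ | e'
  · simp [upd, fam]
  · by_cases h : e' = e
    · subst h
      simp only [upd, Function.update_self, fam, X0]
      by_cases he : e' ∈ L0
      · rw [if_pos he, Matrix.mul_smul, Matrix.smul_mul, flip_Xe (hne e' he)]
        simp
      · rw [if_neg he]; simp
    · simp only [upd, fam]
      rw [Function.update_of_ne (by simpa using h), Function.update_of_ne h]
      rfl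

/-- average of characteristic polynomials over the signs of the listed edges -/
noncomputable def PL : List (N × N) → (Option (N × N) → Matrix N N ℝ) → ℝ[X]
  | [], A => (∑ i, A i).charpoly
  | e :: L, A => C (1 - 1 / 2) * PL L A +
      C (1 / 2) * PL L (upd (some e) (1 - vecMulVec (rv e.1) (rv e.1)) A)

lemma PL_isD (n : ℕ) (hn : Fintype.card N = n + 1) (L : List (N × N)) : IsD n (PL L) := by
  induction L with
  | nil => exact isD_charpoly n hn
  | cons e L ih =>
    exact ih.mix (some e) (rv e.1) (rv_norm e.1) (1 / 2) (by norm_num) (by norm_num)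

/-- selection of signs -/
lemma PL_select (n : ℕ) (hn : Fintype.card N = n + 1) {B : Matrix N N ℝ} (hB : B.IsSymm)
    {L0 : List (N × N)} (hne : ∀ e ∈ L0, e.1 ≠ e.2) (x0 : ℝ) (L : List (N × N)) :
    ∀ s : N × N → ℝ, (∀ e, s e = 1 ∨ s e = -1) →
      (∀ x, x0 < x → 0 < (PL L (fam B L0 s)).eval x) →
      ∃ s' : N × N → ℝ, (∀ e, s' e = 1 ∨ s' e = -1) ∧
        ∀ x, x0 < x → 0 < ((∑ i, fam B L0 s' i).charpoly).eval x := by
  induction L with
  | nil => intro s hs h; exact ⟨s, hs, h⟩
  | cons e L ih =>
    intro s hs h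
    have hA := fam_symm hB L0 s
    have hF := PL_isD n hn L
    obtain ⟨B', a', b', ha, hb, hB', h1, h2⟩ := companion (i := some e) (rv_norm e.1) hA
    have r1 := fun z hz => hF.ratio hB' (some e) hb z hz
    have r2 := fun z hz => hF.ratio hB' (some e) ha z hz
    rw [h1] at r1
    rw [h2] at r2
    have hsel := select (PL L (fam B L0 s))
      (PL L (upd (some e) (1 - vecMulVec (rv e.1) (rv e.1)) (fam B L0 s))) (PL L B') r1 r2
      (hF.monic B' hB') (by rw [hF.deg B' hB']; omega) (1 / 2) (by norm_num) (by norm_num) x0 (by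
        intro x hx
        have := h x hx
        simpa [PL] using this)
    rcases hsel with h3 | h3
    · exact ih s hs h3
    · rw [upd_fam hne] at h3
      refine ih _ ?_ h3
      intro e'
      by_cases he : e' = e
      · subst he
        rw [Function.update_self]
        rcases hs e' with h4 | h4 <;> rw [h4] <;> simp
      · rw [Function.update_of_ne he]; exact hs e'

lemma sum_fam (B : Matrix N N ℝ) (L0 : List (N × N)) (s : N × N → ℝ) :
    ∑ i, fam B L0 s i = B + ∑ e, s e • X0 L0 e := by
  rw [Fintype.sum_option]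
  rfl

/-- evaluation of the average -/
lemma PL_eval {B : Matrix N N ℝ} {L0 : List (N × N)} (hne : ∀ e ∈ L0, e.1 ≠ e.2) (x : ℝ)
    (L : List (N × N)) : L.Nodup → (∀ e ∈ L, e ∈ L0) → ∀ s : N × N → ℝ, (∀ e ∈ L, s e = 1) →
      (PL L (fam B L0 s)).eval x = avgS2 Matrix.det L
        (x • 1 - B - ∑ e ∈ Finset.univ.filter (fun e => e ∉ L), s e • X0 L0 e) := by
  induction L with
  | nil =>
    intro _ _ s _
    simp only [PL, avgS2]
    rw [Matrix.eval_charpoly, sum_fam]
    congr 1
    have : (Matrix.scalar N x : Matrix N N ℝ) = x • 1 := by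
      rw [Matrix.scalar_apply, Matrix.smul_one_eq_diagonal]
    rw [this]
    simp only [List.not_mem_nil, not_false_eq_true, Finset.filter_true]
    abel
  | cons e L ih =>
    intro hnd hsub s hs
    rw [List.nodup_cons] at hnd
    have he0 : e ∈ L0 := hsub e List.mem_cons_self
    simp only [PL, avgS2]
    rw [eval_add, eval_mul, eval_mul, eval_C, eval_C, upd_fam hne,
      ih hnd.2 (fun e' h => hsub e' (List.mem_cons_of_mem _ h)) s
        (fun e' h => hs e' (List.mem_cons_of_mem _ h)),
      ih hnd.2 (fun e' h => hsub e' (List.mem_cons_of_mem _ h)) (Function.update s e (-s e)) (by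
        intro e' h
        have : e' ≠ e := fun h' => hnd.1 (h' ▸ h)
        rw [Function.update_of_ne this]
        exact hs e' (List.mem_cons_of_mem _ h))]
    have hset : Finset.univ.filter (fun e' => e' ∉ L) =
        insert e (Finset.univ.filter (fun e' => e' ∉ e :: L)) := by
      ext e'
      simp only [Finset.mem_filter, Finset.mem_univ, true_and, Finset.mem_insert, List.mem_cons,
        not_or]
      constructor
      · intro h
        by_cases h' : e' = e
        · exact Or.inl h'
        · exact Or.inr ⟨h', h⟩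
      · rintro (h | h)
        · rw [h]; exact hnd.1
        · exact h.2
    have hnot : e ∉ Finset.univ.filter (fun e' => e' ∉ e :: L) := by simp
    rw [hset, Finset.sum_insert hnot, Finset.sum_insert hnot]
    have hX : X0 L0 e = Xe e.1 e.2 := by unfold X0; rw [if_pos he0]
    have hse : s e = 1 := hs e List.mem_cons_self
    have hsum : ∑ e' ∈ Finset.univ.filter (fun e' => e' ∉ e :: L),
        Function.update s e (-s e) e' • X0 L0 e' =
        ∑ e' ∈ Finset.univ.filter (fun e' => e' ∉ e :: L), s e' • X0 L0 e' := by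
      refine Finset.sum_congr rfl fun e' he' => ?_
      have : e' ≠ e := by
        intro h
        rw [h] at he'
        exact hnot he'
      rw [Function.update_of_ne this]
    rw [hsum, Function.update_self, hX, hse]
    have a1 : x • (1 : Matrix N N ℝ) - B - ((1 : ℝ) • Xe e.1 e.2 +
        ∑ e' ∈ Finset.univ.filter (fun e' => e' ∉ e :: L), s e' • X0 L0 e') =
        x • 1 - B - ∑ e' ∈ Finset.univ.filter (fun e' => e' ∉ e :: L), s e' • X0 L0 e' -
          Xe e.1 e.2 := by
      rw [one_smul]; abel
    have a2 : x • (1 : Matrix N N ℝ) - B - ((-1 : ℝ) • Xe e.1 e.2 +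
        ∑ e' ∈ Finset.univ.filter (fun e' => e' ∉ e :: L), s e' • X0 L0 e') =
        x • 1 - B - ∑ e' ∈ Finset.univ.filter (fun e' => e' ∉ e :: L), s e' • X0 L0 e' +
          Xe e.1 e.2 := by
      rw [neg_one_smul]; abel
    rw [a1, a2]
    ring

/-- Existence of a good signing. -/
theorem exists_signing [Nonempty N] {G : SimpleGraph N} [DecidableRel G.Adj] {L : List (N × N)}
    (hL : EdgeList G L) (c : ℝ)
    (hpos : ∀ x, -c < x → 0 < mu (Matrix.diagonal fun v => x + (G.degree v : ℝ)) L ∅) :
    ∃ s : N × N → ℝ, (∀ e, s e = 1 ∨ s e = -1) ∧ ∀ y : N → ℝ,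
      c * (y ⬝ᵥ y) ≤ ∑ v, (G.degree v : ℝ) * y v ^ 2 -
        ∑ e ∈ L.toFinset, s e * (2 * (y e.1 * y e.2)) := by
  obtain ⟨n, hn⟩ : ∃ n, Fintype.card N = n + 1 := by
    have : 0 < Fintype.card N := Fintype.card_pos
    exact ⟨_, (Nat.succ_pred_eq_of_pos this).symm⟩
  have hne : ∀ e ∈ L, e.1 ≠ e.2 := fun e he => (hL.adj e he).ne
  set B : Matrix N N ℝ := Matrix.diagonal fun v => -(G.degree v : ℝ) with hB
  have hBs : B.IsSymm := Matrix.isSymm_diagonal _
  obtain ⟨s, hs, hs'⟩ := PL_select n hn hBs hne (-c) L (fun _ => 1) (fun _ => Or.inl rfl) (by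
    intro x hx
    rw [PL_eval hne x L hL.nodup (fun _ h => h) _ (fun _ _ => rfl)]
    have h1 : ∑ e ∈ Finset.univ.filter (fun e => e ∉ L), (1 : ℝ) • X0 L e = 0 := by
      apply Finset.sum_eq_zero
      intro e he
      unfold X0
      rw [if_neg (Finset.mem_filter.1 he).2, smul_zero]
    rw [h1, sub_zero, avgS2_det L hne]
    have h2 : x • (1 : Matrix N N ℝ) - B = Matrix.diagonal fun v => x + (G.degree v : ℝ) := by
      rw [hB, Matrix.smul_one_eq_diagonal, Matrix.diagonal_sub]
      congr 1
      funext v
      ring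
    rw [h2]
    exact hpos x hx)
  refine ⟨s, hs, fun y => ?_⟩
  have hsym : (∑ i, fam B L s i).IsHermitian := by
    unfold Matrix.IsHermitian
    rw [Matrix.conjTranspose_eq_transpose_of_trivial, Matrix.transpose_sum]
    exact Finset.sum_congr rfl fun i _ => fam_symm hBs L s i
  have hq := quad_le _ hsym (-c) hs' y
  have hval : y ⬝ᵥ ((∑ i, fam B L s i) *ᵥ y) = -(∑ v, (G.degree v : ℝ) * y v ^ 2) +
      ∑ e ∈ L.toFinset, s e * (2 * (y e.1 * y e.2)) := by
    rw [sum_fam, Matrix.add_mulVec, dotProduct_add]
    congr 1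
    · simp only [dotProduct, hB, Matrix.mulVec_diagonal]
      rw [← Finset.sum_neg_distrib]
      refine Finset.sum_congr rfl fun v _ => ?_
      ring
    · rw [Matrix.sum_mulVec, dotProduct_sum]
      have h3 : ∀ e : N × N, y ⬝ᵥ ((s e • X0 L e) *ᵥ y) =
          if e ∈ L.toFinset then s e * (2 * (y e.1 * y e.2)) else 0 := by
        intro e
        unfold X0
        by_cases he : e ∈ L
        · rw [if_pos he, if_pos (List.mem_toFinset.2 he), Matrix.smul_mulVec, dotProduct_smul]
          have : y ⬝ᵥ (Xe e.1 e.2 *ᵥ y) = 2 * (y e.1 * y e.2) := by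
            unfold Xe
            have hs1 : ∀ (a : N) (c : ℝ), y ⬝ᵥ Function.update (0 : N → ℝ) a c = y a * c := by
              intro a c
              change y ⬝ᵥ Pi.single a c = _
              rw [dotProduct_single]
            rw [Matrix.add_mulVec, dotProduct_add, Matrix.single_mulVec, Matrix.single_mulVec,
              hs1, hs1]
            ring
          rw [this, smul_eq_mul]
        · rw [if_neg he, if_neg (fun h => he (List.mem_toFinset.1 h))]
          simp
      simp only [h3]
      rw [Finset.sum_ite_mem, Finset.univ_inter]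
  rw [hval] at hq
  linarith

end Pool.Agent.Q260.MG
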